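import Pool.Agent.R772.PubLI

/-!
Public definitions: velocity fields which are slow up to a part which is small in a critical norm.
-/

set_option autoImplicit false

open MeasureTheory Set
open scoped InnerProductSpace ContDiff ENNReal

namespace Run7.h283.NS

open H772R2.NS.Pub
open Pool.Agent.W795.ES (outer)

/-- In `V` the compression is at most `κ / |x - y|² + B + g(x)`, for some point `y ∈ ℝ³` and some
`g ≥ 0` the norm of which in `L^{3/2}(Ω ∩ V)` is at most `δ`, that is,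
`ξ·G(x) ξ ≥ -(κ / |x - y|² + B + g(x)) |ξ|²` for almost every `x ∈ Ω ∩ V` and all `ξ`. -/
def StrainUpTo {Ω : Set R3} (V : Set R3) (κ B δ : ℝ) (G : L2 Ω Mat) : Prop :=
  ∃ (y : R3) (g : R3 → ℝ), AEMeasurable g (volume.restrict (Ω ∩ V)) ∧ (∀ x, 0 ≤ g x) ∧
    eLpNorm g (3 / 2) (volume.restrict (Ω ∩ V)) ≤ ENNReal.ofReal δ ∧
    ∀ᵐ x ∂(volume.restrict (Ω ∩ V)), ∀ ξ : R3,
      -(κ / ‖x - y‖ ^ 2 + B + g x) * ‖ξ‖ ^ 2 ≤ ⟪G.fn x, outer ξ⟫_ℝ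

/-- For some rigid motion `a + A x` (`A` skew symmetric), some point `y ∈ ℝ³` and some `g ≥ 0` the
norm of which in `L³(Ω ∩ V)` is at most `δ`, `|u(x) - (a + A x)| ≤ κ / |x - y| + B + g(x)` for almost
every `x ∈ Ω ∩ V`. -/
def VelocityUpTo {Ω : Set R3} (V : Set R3) (κ B δ : ℝ) (u : L2 Ω R3) : Prop :=
  ∃ (y a : R3) (A : R3 →L[ℝ] R3) (g : R3 → ℝ), (∀ ξ, ⟪A ξ, ξ⟫_ℝ = 0) ∧
    AEMeasurable g (volume.restrict (Ω ∩ V)) ∧ (∀ x, 0 ≤ g x) ∧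
    eLpNorm g 3 (volume.restrict (Ω ∩ V)) ≤ ENNReal.ofReal δ ∧
    ∀ᵐ x ∂(volume.restrict (Ω ∩ V)), ‖u.fn x - (a + A x)‖ ≤ κ / ‖x - y‖ + B + g x

end Run7.h283.NS
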