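import Pool.Agent.Run7.h283.NS.Hardy1

/-!
The Hardy inequality with the distances to the complement in the directions of an orthonormal basis.
-/

set_option autoImplicit false

open MeasureTheory Set Filter Topology
open scoped ENNReal ContDiff InnerProductSpace

namespace Run7.h283.NS

section gen

variable {E : Type*} [NormedAddCommGroup E] [InnerProductSpace ℝ E]

/-- the distance from `x` to the complement of `Ω` in the direction `v` -/
noncomputable def rch (Ω : Set E) (v x : E) : ℝ := sInf {r : ℝ | 0 < r ∧ x + r • v ∉ Ω}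

/-- the slice of `Ω` through `x` in the direction `v` -/
def slice (Ω : Set E) (v x : E) : Set ℝ := (fun s : ℝ => x + s • v) ⁻¹' Ω

theorem rch_nonneg (Ω : Set E) (v x : E) : 0 ≤ rch Ω v x := Real.sInf_nonneg fun _ h => h.1.le

theorem rch_slice (Ω : Set E) (v x : E) (s : ℝ) : rch Ω v (x + s • v) = rt (slice Ω v x) s := by
  unfold rch rt slice
  congr 1
  ext r
  rw [Set.mem_ofPred_eq, Set.mem_ofPred_eq, mem_preimage, add_smul, add_assoc]

theorem rch_slice_neg (Ω : Set E) (v x : E) (s : ℝ) :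
    rch Ω (-v) (x + s • v) = lf (slice Ω v x) s := by
  unfold rch lf slice
  congr 1
  ext r
  rw [Set.mem_ofPred_eq, Set.mem_ofPred_eq, mem_preimage, sub_smul, smul_neg, add_assoc,
    ← sub_eq_add_neg]

theorem cont_line (v x : E) : Continuous fun s : ℝ => x + s • v := by fun_prop

theorem slice_open {Ω : Set E} (hΩ : IsOpen Ω) (v x : E) : IsOpen (slice Ω v x) :=
  hΩ.preimage (cont_line v x)

theorem slice_bdd {Ω : Set E} (hΩ : Bornology.IsBounded Ω) {v : E} (hv : ‖v‖ = 1) (x : E) :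
    Bornology.IsBounded (slice Ω v x) := by
  obtain ⟨C, hC⟩ := hΩ.exists_norm_le
  refine isBounded_iff_forall_norm_le.2 ⟨C + ‖x‖, fun s hs => ?_⟩
  have h1 := hC _ hs
  have h2 : ‖s • v‖ = ‖s‖ := by rw [norm_smul, hv, mul_one]
  have h3 : ‖s • v‖ ≤ ‖x + s • v‖ + ‖x‖ := by
    have := norm_sub_le (x + s • v) x
    rwa [add_sub_cancel_left] at this
  linarith

theorem isClosedEmbedding_line {v : E} (hv : ‖v‖ = 1) (x : E) :
    IsClosedEmbedding fun s : ℝ => x + s • v := by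
  have h : Isometry fun s : ℝ => x + s • v := by
    refine Isometry.of_dist_eq fun s t => ?_
    rw [dist_eq_norm, dist_eq_norm, add_sub_add_left_eq_sub, ← sub_smul, norm_smul, hv, mul_one]
  exact h.isClosedEmbedding

/-- the distances in a direction are lower semicontinuous in `Ω` -/
theorem rch_open {Ω : Set E} (hΩ : IsOpen Ω) (hb : Bornology.IsBounded Ω) {v : E} (hv : ‖v‖ = 1)
    {r : ℝ} (hr : 0 ≤ r) : IsOpen {x | x ∈ Ω ∧ r < rch Ω v x} := by
  rw [Metric.isOpen_iff]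
  rintro x ⟨hx, hrx⟩
  obtain ⟨r', hr1, hr2⟩ := exists_between hrx
  have hK : IsCompact ((fun s : ℝ => x + s • v) '' Icc 0 r') :=
    isCompact_Icc.image (cont_line v x)
  have hKΩ : (fun s : ℝ => x + s • v) '' Icc 0 r' ⊆ Ω := by
    rintro _ ⟨s, hs, rfl⟩
    rcases hs.1.eq_or_lt with h | h
    · simpa [← h] using hx
    · by_contra hcon
      have h5 : rch Ω v x ≤ s := csInf_le ⟨0, fun _ h => h.1.le⟩ ⟨h, hcon⟩
      linarith [hs.2]
  obtain ⟨δ, hδ, hsub⟩ := hK.exists_thickening_subset_open hΩ hKΩ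
  refine ⟨δ, hδ, fun y hy => ?_⟩
  have h1 : ∀ s ∈ Icc 0 r', y + s • v ∈ Ω := by
    intro s hs
    refine hsub (Metric.mem_thickening_iff.2 ⟨x + s • v, ⟨s, hs, rfl⟩, ?_⟩)
    rw [dist_add_right]
    exact hy
  have hr' : 0 ≤ r' := hr.trans hr1.le
  refine ⟨by simpa using h1 0 ⟨le_rfl, hr'⟩, lt_of_lt_of_le hr1 ?_⟩
  have hne : {s : ℝ | 0 < s ∧ y + s • v ∉ Ω}.Nonempty := by
    have h := rt_nonempty (slice_bdd hb hv y) 0
    obtain ⟨s, hs, hs'⟩ := h
    refine ⟨s, hs, ?_⟩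
    rw [zero_add] at hs'
    exact hs'
  refine le_csInf hne fun s hs => ?_
  by_contra hcon
  exact hs.2 (h1 s ⟨hs.1.le, (not_le.1 hcon).le⟩)

variable [MeasurableSpace E] [BorelSpace E]

theorem rch_meas {Ω : Set E} (hΩ : IsOpen Ω) (hb : Bornology.IsBounded Ω) {v : E} (hv : ‖v‖ = 1) :
    Measurable (Ω.indicator (rch Ω v)) := by
  refine measurable_of_Ioi fun r => ?_
  by_cases hr : 0 ≤ r
  · have : (Ω.indicator (rch Ω v)) ⁻¹' Ioi r = {x | x ∈ Ω ∧ r < rch Ω v x} := by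
      ext x
      by_cases hx : x ∈ Ω
      · simp [hx]
      · simp [hx, hr]
    rw [this]
    exact (rch_open hΩ hb hv hr).measurableSet
  · have : (Ω.indicator (rch Ω v)) ⁻¹' Ioi r = univ := by
      refine eq_univ_of_forall fun x => ?_
      have : 0 ≤ Ω.indicator (rch Ω v) x := indicator_nonneg (fun x _ => rch_nonneg Ω v x) x
      exact lt_of_lt_of_le (not_le.1 hr) this
    rw [this]
    exact MeasurableSet.univ

/-- one direction of the wall potential, zero outside of `Ω` -/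
noncomputable def wpot (Ω : Set E) (v x : E) : ℝ :=
  ((Ω.indicator (rch Ω v) x)⁻¹ + (Ω.indicator (rch Ω (-v)) x)⁻¹) ^ 2

theorem wpot_meas {Ω : Set E} (hΩ : IsOpen Ω) (hb : Bornology.IsBounded Ω) {v : E} (hv : ‖v‖ = 1) :
    Measurable (wpot Ω v) :=
  ((rch_meas hΩ hb hv).inv.add (rch_meas hΩ hb (v := -v) (by rwa [norm_neg])).inv).pow_const 2

omit [MeasurableSpace E] [BorelSpace E] in
theorem wpot_eq {Ω : Set E} {v x : E} (hx : x ∈ Ω) :
    wpot Ω v x = ((rch Ω v x)⁻¹ + (rch Ω (-v) x)⁻¹) ^ 2 := by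
  unfold wpot
  rw [indicator_of_mem hx, indicator_of_mem hx]

omit [MeasurableSpace E] [BorelSpace E] in
theorem wpot_zero {Ω : Set E} {v x : E} (hx : x ∉ Ω) : wpot Ω v x = 0 := by
  unfold wpot
  rw [indicator_of_notMem hx, indicator_of_notMem hx]
  simp

variable [FiniteDimensional ℝ E] {μ : Measure E} [μ.IsAddHaarMeasure]

/-- integration along lines -/
theorem lines {v : E} (hv : ‖v‖ = 1) {G : E → ℝ≥0∞} (hG : Measurable G) :
    ∫⁻ x, G x ∂μ
      = ∫⁻ x, ((Ico (0 : ℝ) 1).indicator 1 ⟪x, v⟫_ℝ * ∫⁻ s : ℝ, G (x + s • v)) ∂μ := by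
  have hI : Measurable ((Ico (0 : ℝ) 1).indicator (1 : ℝ → ℝ≥0∞)) :=
    measurable_one.indicator measurableSet_Ico
  have hiv : Measurable fun x : E => ⟪x, v⟫_ℝ := (continuous_id.inner continuous_const).measurable
  have hm1 : Measurable fun p : E × ℝ => G (p.1 + p.2 • v) :=
    hG.comp (by fun_prop)
  have e1 : ∀ x, (Ico (0 : ℝ) 1).indicator (1 : ℝ → ℝ≥0∞) ⟪x, v⟫_ℝ * ∫⁻ s : ℝ, G (x + s • v)
      = ∫⁻ s : ℝ, (Ico (0 : ℝ) 1).indicator (1 : ℝ → ℝ≥0∞) ⟪x, v⟫_ℝ * G (x + s • v) := by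
    intro x
    rw [lintegral_const_mul]
    exact hG.comp (cont_line v x).measurable
  simp_rw [e1]
  rw [lintegral_lintegral_swap]
  swap
  · exact ((hI.comp (hiv.comp measurable_fst)).mul hm1).aemeasurable
  have e2 : ∀ s : ℝ, ∫⁻ x, (Ico (0 : ℝ) 1).indicator (1 : ℝ → ℝ≥0∞) ⟪x, v⟫_ℝ * G (x + s • v) ∂μ
      = ∫⁻ x, (Ico (0 : ℝ) 1).indicator (1 : ℝ → ℝ≥0∞) (⟪x, v⟫_ℝ - s) * G x ∂μ := by
    intro s
    have h1 := lintegral_add_right_eq_self (μ := μ)
      (fun x => (Ico (0 : ℝ) 1).indicator (1 : ℝ → ℝ≥0∞) (⟪x, v⟫_ℝ - s) * G x) (s • v)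
    rw [← h1]
    refine lintegral_congr fun x => ?_
    rw [inner_add_left, inner_smul_left, real_inner_self_eq_norm_sq, hv]
    simp
  simp_rw [e2]
  rw [lintegral_lintegral_swap]
  swap
  · refine Measurable.aemeasurable ?_
    exact (hI.comp ((hiv.comp measurable_snd).sub measurable_fst)).mul (hG.comp measurable_snd)
  refine lintegral_congr fun x => ?_
  rw [lintegral_mul_const]
  swap
  · exact hI.comp (measurable_const.sub measurable_id)
  have e3 : ∫⁻ s : ℝ, (Ico (0 : ℝ) 1).indicator (1 : ℝ → ℝ≥0∞) (⟪x, v⟫_ℝ - s) = 1 := by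
    rw [lintegral_sub_left_eq_self (fun s => (Ico (0 : ℝ) 1).indicator (1 : ℝ → ℝ≥0∞) s)]
    rw [lintegral_indicator_one measurableSet_Ico]
    simp
  rw [e3, one_mul]

/-- **The Hardy inequality in one direction.** -/
theorem hardy_dir {Ω : Set E} (hΩ : IsOpen Ω) (hb : Bornology.IsBounded Ω) {v : E} (hv : ‖v‖ = 1)
    {φ : E → ℝ} (h1 : ContDiff ℝ ∞ φ) (h2 : HasCompactSupport φ) (h3 : tsupport φ ⊆ Ω) :
    ∫⁻ x, ENNReal.ofReal (1 / 4 * wpot Ω v x * φ x ^ 2) ∂μ
      ≤ ∫⁻ x, ENNReal.ofReal (fderiv ℝ φ x v ^ 2) ∂μ := by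
  have hφm : Measurable φ := h1.continuous.measurable
  have hd : Continuous fun x => fderiv ℝ φ x v :=
    (h1.continuous_fderiv (by norm_num)).clm_apply continuous_const
  rw [lines hv (μ := μ) (G := fun x => ENNReal.ofReal (1 / 4 * wpot Ω v x * φ x ^ 2))
    ((((wpot_meas hΩ hb hv).const_mul _).mul (hφm.pow_const 2)).ennreal_ofReal),
    lines hv (μ := μ) (G := fun x => ENNReal.ofReal (fderiv ℝ φ x v ^ 2))
    ((hd.measurable.pow_const 2).ennreal_ofReal)]
  refine lintegral_mono fun x => ?_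
  refine mul_le_mul_right ?_ _
  -- the slice
  have hf : ContDiff ℝ ∞ fun s : ℝ => φ (x + s • v) := h1.comp (by fun_prop)
  have hfc : HasCompactSupport fun s : ℝ => φ (x + s • v) :=
    h2.comp_isClosedEmbedding (isClosedEmbedding_line hv x)
  have hfs : tsupport (fun s : ℝ => φ (x + s • v)) ⊆ slice Ω v x := by
    refine (tsupport_comp_subset_preimage φ (cont_line v x)).trans ?_
    exact preimage_mono h3
  have key := hardy_line (slice_open hΩ v x) (slice_bdd hb hv x) hf hfc hfs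
  have hder : ∀ s, deriv (fun s : ℝ => φ (x + s • v)) s = fderiv ℝ φ (x + s • v) v := by
    intro s
    have g1 : HasFDerivAt φ (fderiv ℝ φ (x + s • v)) (x + s • v) :=
      ((h1.differentiable (by norm_num)) _).hasFDerivAt
    have g2 : HasDerivAt (fun s : ℝ => x + s • v) v s := by
      simpa using ((hasDerivAt_id s).smul_const v).const_add x
    exact (g1.comp_hasDerivAt s g2).deriv
  have hint : Integrable fun s : ℝ => deriv (fun s : ℝ => φ (x + s • v)) s ^ 2 :=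
    Continuous.integrable_of_hasCompactSupport ((hf.continuous_deriv (by norm_num)).pow 2)
      (hfc.deriv.comp_left (g := fun x : ℝ => x ^ 2) (by simp))
  rw [ofReal_integral_eq_lintegral_ofReal hint (Eventually.of_forall fun s => sq_nonneg _)] at key
  simp_rw [hder] at key
  refine le_trans (le_of_eq ?_) key
  rw [← lintegral_indicator (slice_open hΩ v x).measurableSet]
  refine lintegral_congr fun s => ?_
  by_cases hs : s ∈ slice Ω v x
  · have hs' : x + s • v ∈ Ω := hs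
    rw [indicator_of_mem hs, wpot_eq hs', rch_slice, rch_slice_neg]
  · have hs' : x + s • v ∉ Ω := hs
    rw [indicator_of_notMem hs, wpot_zero hs']
    simp

omit [MeasurableSpace E] [BorelSpace E] in
theorem fderiv_parseval {ι : Type*} [Fintype ι] (b : OrthonormalBasis ι ℝ E) (L : E →L[ℝ] ℝ) :
    ∑ i, L (b i) ^ 2 = ‖L‖ ^ 2 := by
  obtain ⟨w, rfl⟩ := (InnerProductSpace.toDual ℝ E).surjective L
  rw [LinearIsometryEquiv.norm_map, ← b.sum_sq_norm_inner_right w]
  refine Finset.sum_congr rfl fun i _ => ?_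
  rw [InnerProductSpace.toDual_apply_apply, Real.norm_eq_abs, sq_abs, real_inner_comm]

/-- **The Hardy inequality with the distances to the complement in the directions of an orthonormal
basis.** -/
theorem hardy_basis {Ω : Set E} (hΩ : IsOpen Ω) (hb : Bornology.IsBounded Ω) {ι : Type*} [Fintype ι]
    (b : OrthonormalBasis ι ℝ E) {φ : E → ℝ} (h1 : ContDiff ℝ ∞ φ) (h2 : HasCompactSupport φ)
    (h3 : tsupport φ ⊆ Ω) :
    ∫⁻ x, ENNReal.ofReal (1 / 4 * (∑ i, wpot Ω (b i) x) * φ x ^ 2) ∂μ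
      ≤ ENNReal.ofReal (∫ x, ‖fderiv ℝ φ x‖ ^ 2 ∂μ) := by
  have hφm : Measurable φ := h1.continuous.measurable
  have hnn : ∀ i x, 0 ≤ 1 / 4 * wpot Ω (b i) x * φ x ^ 2 := by
    intro i x
    unfold wpot
    positivity
  have hdc : Continuous fun x => fderiv ℝ φ x := h1.continuous_fderiv (by norm_num)
  have hint : Integrable (fun x => ‖fderiv ℝ φ x‖ ^ 2) μ :=
    Continuous.integrable_of_hasCompactSupport (hdc.norm.pow 2)
      ((h2.fderiv ℝ).comp_left (g := fun L : E →L[ℝ] ℝ => ‖L‖ ^ 2) (by simp))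
  calc ∫⁻ x, ENNReal.ofReal (1 / 4 * (∑ i, wpot Ω (b i) x) * φ x ^ 2) ∂μ
      = ∫⁻ x, ∑ i, ENNReal.ofReal (1 / 4 * wpot Ω (b i) x * φ x ^ 2) ∂μ := by
        refine lintegral_congr fun x => ?_
        rw [← ENNReal.ofReal_sum_of_nonneg fun i _ => hnn i x, Finset.mul_sum, Finset.sum_mul]
    _ = ∑ i, ∫⁻ x, ENNReal.ofReal (1 / 4 * wpot Ω (b i) x * φ x ^ 2) ∂μ := by
        refine lintegral_finsetSum _ fun i _ => ?_
        exact (((wpot_meas hΩ hb (b.norm_eq_one i)).const_mul _).mul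
          (hφm.pow_const 2)).ennreal_ofReal
    _ ≤ ∑ i, ∫⁻ x, ENNReal.ofReal (fderiv ℝ φ x (b i) ^ 2) ∂μ :=
        Finset.sum_le_sum fun i _ => hardy_dir hΩ hb (b.norm_eq_one i) h1 h2 h3
    _ = ∫⁻ x, ∑ i, ENNReal.ofReal (fderiv ℝ φ x (b i) ^ 2) ∂μ := by
        refine (lintegral_finsetSum _ fun i _ => ?_).symm
        exact ((hdc.clm_apply continuous_const).measurable.pow_const 2).ennreal_ofReal
    _ = ∫⁻ x, ENNReal.ofReal (‖fderiv ℝ φ x‖ ^ 2) ∂μ := by
        refine lintegral_congr fun x => ?_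
        rw [← ENNReal.ofReal_sum_of_nonneg fun i _ => sq_nonneg _, fderiv_parseval]
    _ = ENNReal.ofReal (∫ x, ‖fderiv ℝ φ x‖ ^ 2 ∂μ) :=
        (ofReal_integral_eq_lintegral_ofReal hint (Eventually.of_forall fun x => by positivity)).symm

omit [MeasurableSpace E] [BorelSpace E] [FiniteDimensional ℝ E] in
theorem rch_pos {Ω : Set E} (hΩ : IsOpen Ω) (hb : Bornology.IsBounded Ω) {v : E} (hv : ‖v‖ = 1)
    {x : E} (hx : x ∈ Ω) : 0 < rch Ω v x := by
  have h := rch_slice Ω v x 0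
  rw [zero_smul, add_zero] at h
  rw [h]
  refine rt_pos (slice_open hΩ v x) (slice_bdd hb hv x) ?_
  show x + (0 : ℝ) • v ∈ Ω
  rwa [zero_smul, add_zero]

omit [MeasurableSpace E] [BorelSpace E] [FiniteDimensional ℝ E] in
theorem rch_half {Ω : Set E} (hΩ : IsOpen Ω) (hb : Bornology.IsBounded Ω) {v : E} (hv : ‖v‖ = 1)
    {x p : E} (hx : x ∈ Ω) (f : E →L[ℝ] ℝ) (hf : ∀ a ∈ Ω, f a < f p) (hfv : 0 < f v) :
    f v / (f p - f x) ≤ (rch Ω v x)⁻¹ := by
  have h1 : 0 < f p - f x := sub_pos.2 (hf x hx)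
  have h2 : rch Ω v x ≤ (f p - f x) / f v := by
    refine csInf_le ⟨0, fun _ h => h.1.le⟩ ⟨div_pos h1 hfv, fun hcon => ?_⟩
    have h3 := hf _ hcon
    rw [map_add, map_smul, smul_eq_mul, div_mul_cancel₀ _ hfv.ne'] at h3
    linarith
  have h4 := inv_anti₀ (rch_pos hΩ hb hv hx) h2
  rwa [inv_div] at h4

omit [MeasurableSpace E] [BorelSpace E] in
/-- in a convex set the potential is at least the inverse square of the distance to the
complement -/
theorem convex_le {Ω : Set E} (hΩ : IsOpen Ω) (hb : Bornology.IsBounded Ω) (hc : Convex ℝ Ω)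
    {ι : Type*} [Fintype ι] [Nonempty ι] (b : OrthonormalBasis ι ℝ E) {x : E} (hx : x ∈ Ω) :
    (Metric.infDist x Ωᶜ ^ 2)⁻¹ ≤ ∑ i, ((rch Ω (b i) x)⁻¹ + (rch Ω (-(b i)) x)⁻¹) ^ 2 := by
  have hne : (Ωᶜ).Nonempty := by
    obtain ⟨i⟩ := ‹Nonempty ι›
    obtain ⟨s, hs, hs'⟩ := rt_nonempty (slice_bdd hb (b.norm_eq_one i) x) 0
    exact ⟨x + (0 + s) • b i, hs'⟩
  obtain ⟨p, hp, hd⟩ := hΩ.isClosed_compl.exists_infDist_eq_dist hne x
  obtain ⟨f, hf⟩ := geometric_hahn_banach_open_point hc hΩ hp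
  have h1 : 0 < f p - f x := sub_pos.2 (hf x hx)
  have h2 : f p - f x ≤ ‖f‖ * dist x p := by
    have := f.le_opNorm (p - x)
    rw [map_sub, Real.norm_eq_abs] at this
    rw [dist_comm, dist_eq_norm]
    exact (le_abs_self _).trans this
  have hkey : ∀ i, f (b i) ^ 2 / (f p - f x) ^ 2
      ≤ ((rch Ω (b i) x)⁻¹ + (rch Ω (-(b i)) x)⁻¹) ^ 2 := by
    intro i
    have g1 : 0 ≤ (rch Ω (b i) x)⁻¹ := inv_nonneg.2 (rch_nonneg _ _ _)
    have g2 : 0 ≤ (rch Ω (-(b i)) x)⁻¹ := inv_nonneg.2 (rch_nonneg _ _ _)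
    rcases lt_trichotomy (f (b i)) 0 with h | h | h
    · have h3 := rch_half hΩ hb (v := -(b i)) (by rw [norm_neg, b.norm_eq_one]) hx f hf
        (by rw [map_neg]; linarith)
      rw [map_neg] at h3
      rw [← div_pow, ← neg_sq (f (b i) / (f p - f x)), ← neg_div]
      have h4 : 0 ≤ -f (b i) / (f p - f x) := div_nonneg (by linarith) h1.le
      exact pow_le_pow_left₀ h4 (by linarith) 2
    · rw [h]
      have : (0 : ℝ) ^ 2 / (f p - f x) ^ 2 = 0 := by simp
      rw [this]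
      positivity
    · have h3 := rch_half hΩ hb (b.norm_eq_one i) hx f hf h
      rw [← div_pow]
      have h4 : 0 ≤ f (b i) / (f p - f x) := div_nonneg h.le h1.le
      exact pow_le_pow_left₀ h4 (by linarith) 2
  refine le_trans ?_ (Finset.sum_le_sum fun i _ => hkey i)
  rw [← Finset.sum_div, fderiv_parseval, hd]
  have h5 : 0 < dist x p := by
    rcases (dist_nonneg (x := x) (y := p)).eq_or_lt with h | h
    · rw [← h, mul_zero] at h2
      linarith
    · exact h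
  have h6 : 0 < ‖f‖ := by
    rcases (norm_nonneg f).eq_or_lt with h | h
    · rw [← h, zero_mul] at h2
      linarith
    · exact h
  have h7 : (dist x p ^ 2)⁻¹ = ‖f‖ ^ 2 / (‖f‖ * dist x p) ^ 2 := by
    field_simp
  rw [h7]
  exact div_le_div_of_nonneg_left (by positivity) (by positivity) (pow_le_pow_left₀ h1.le h2 2)

end gen

end Run7.h283.NS
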