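import Pool.Agent.R772.PubLI

/-!
Public definitions: the distances to the complement in given directions, the wall potential, and
velocity fields which are slow up to multiples of the wall potential.
-/

set_option autoImplicit false

open MeasureTheory Set
open scoped InnerProductSpace ContDiff

namespace Run7.h283.NS

open H772R2.NS.Pub
open Pool.Agent.W795.ES (outer)

/-- The distance from `x` to the complement of `Ω` in the direction `v`: the infimum of the `r > 0`
with `x + r v ∉ Ω`. -/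
noncomputable def reach (Ω : Set R3) (v x : R3) : ℝ := sInf {r : ℝ | 0 < r ∧ x + r • v ∉ Ω}

/-- The wall potential of `Ω` in the frame `b`: the sum over `i` of `(1/l + 1/l')²`, where `l` and
`l'` are the distances from `x` to the complement of `Ω` in the directions `b i` and `- b i`. -/
noncomputable def wall (Ω : Set R3) (b : Fin 3 → R3) (x : R3) : ℝ :=
  ∑ i, ((reach Ω (b i) x)⁻¹ + (reach Ω (-b i) x)⁻¹) ^ 2

/-- In `V` the compression is at most `κ' P(x) + κ / |x - y|² + B`, for some point `y ∈ ℝ³`, where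
`P` is the wall potential of `Ω` in some orthonormal frame `b`, that is,
`ξ·G(x) ξ ≥ -(κ' P(x) + κ / |x - y|² + B) |ξ|²` for almost every `x ∈ Ω ∩ V` and all `ξ`. -/
def SlowStrainAt {Ω : Set R3} (V : Set R3) (κ' κ B : ℝ) (G : L2 Ω Mat) : Prop :=
  ∃ (b : Fin 3 → R3) (y : R3), Orthonormal ℝ b ∧
    ∀ᵐ x ∂(volume.restrict (Ω ∩ V)), ∀ ξ : R3,
      -(κ' * wall Ω b x + κ / ‖x - y‖ ^ 2 + B) * ‖ξ‖ ^ 2 ≤ ⟪G.fn x, outer ξ⟫_ℝ

/-- For some rigid motion `a + A x` (`A` skew symmetric), some point `y ∈ ℝ³` and some orthonormal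
frame `b`, `|u(x) - (a + A x)| ≤ κ' √(P(x)) + κ / |x - y| + B` for almost every `x ∈ Ω ∩ V`, where
`P` is the wall potential of `Ω` in the frame `b`. -/
def SlowVelocityAt {Ω : Set R3} (V : Set R3) (κ' κ B : ℝ) (u : L2 Ω R3) : Prop :=
  ∃ (b : Fin 3 → R3) (y a : R3) (A : R3 →L[ℝ] R3), Orthonormal ℝ b ∧ (∀ ξ, ⟪A ξ, ξ⟫_ℝ = 0) ∧
    ∀ᵐ x ∂(volume.restrict (Ω ∩ V)),
      ‖u.fn x - (a + A x)‖ ≤ κ' * Real.sqrt (wall Ω b x) + κ / ‖x - y‖ + B

end Run7.h283.NS
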