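import Pool.Agent.R772.LI10
import Pool.Agent.Run7.h283.NS.Hardy2
import Pool.Agent.Run7.h283.NS.PubWall

/-!
The wall potential is form bounded, and the local criterion with the wall potential.
-/

set_option autoImplicit false

open MeasureTheory Set Filter Topology
open scoped InnerProductSpace ENNReal ContDiff

namespace Run7.h283.NS

section inner

open H772R2.NS

theorem exists_basis {b : Fin 3 → E3} (hb : Orthonormal ℝ b) :
    ∃ c : OrthonormalBasis (Fin 3) ℝ E3, ∀ i, c i = b i := by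
  have hcard : Module.finrank ℝ E3 = Fintype.card (Fin 3) := by
    rw [finrank_euclideanSpace]
  have h1 : Orthonormal ℝ ((univ : Set (Fin 3)).domRestrict b) := by
    refine ⟨fun i => hb.1 _, fun i j hij => hb.2 fun h => hij (Subtype.ext h)⟩
  obtain ⟨c, hc⟩ := h1.exists_orthonormalBasis_extension_of_card_eq hcard
  exact ⟨c, fun i => hc i (mem_univ _)⟩

/-- the wall potential is form bounded -/
theorem wall_bound {Ω : Set E3} (hΩ : IsOpen Ω) (hbd : Bornology.IsBounded Ω) {b : Fin 3 → E3}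
    (hb : Orthonormal ℝ b) {φ : E3 → ℝ} (h1 : ContDiff ℝ ∞ φ) (h2 : HasCompactSupport φ)
    (h3 : tsupport φ ⊆ Ω) :
    ∫⁻ x, ENNReal.ofReal (1 / 4 * (∑ i, wpot Ω (b i) x) * φ x ^ 2)
      ≤ ENNReal.ofReal (∫ x, ‖fderiv ℝ φ x‖ ^ 2) := by
  obtain ⟨c, hc⟩ := exists_basis hb
  have := hardy_basis (μ := (volume : Measure E3)) hΩ hbd c h1 h2 h3
  simpa only [hc] using this

theorem wall_meas {Ω : Set E3} (hΩ : IsOpen Ω) (hbd : Bornology.IsBounded Ω) {b : Fin 3 → E3}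
    (hb : Orthonormal ℝ b) : Measurable fun x => ∑ i, wpot Ω (b i) x :=
  Finset.measurable_fun_sum _ fun i _ => wpot_meas hΩ hbd (hb.1 i)

theorem wall_convex {Ω : Set E3} (hΩ : IsOpen Ω) (hbd : Bornology.IsBounded Ω) (hc : Convex ℝ Ω)
    {b : Fin 3 → E3} (hb : Orthonormal ℝ b) {x : E3} (hx : x ∈ Ω) :
    (Metric.infDist x Ωᶜ ^ 2)⁻¹ ≤ ∑ i, ((rch Ω (b i) x)⁻¹ + (rch Ω (-(b i)) x)⁻¹) ^ 2 := by
  obtain ⟨c, hc'⟩ := exists_basis hb
  have := convex_le hΩ hbd hc c hx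
  simpa only [hc'] using this

end inner

open H772R2.NS.Pub Pool.Agent.W795.TQ Pool.Agent.R462.HC Pool.Agent.R772.LI
open Pool.Agent.W795.ES (stretch outer)

variable {Ω V : Set R3} {b : Fin 3 → R3}

theorem wall_eq {x : R3} (hx : x ∈ Ω) :
    wall Ω b x = ∑ i, wpot (E := H772R2.NS.E3) Ω (b i) x :=
  Finset.sum_congr rfl fun _ _ => (wpot_eq (E := H772R2.NS.E3) hx).symm

theorem wall_nonneg (Ω : Set R3) (b : Fin 3 → R3) (x : R3) : 0 ≤ wall Ω b x :=
  Finset.sum_nonneg fun _ _ => sq_nonneg _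

theorem wall_formBdd (hΩ : IsOpen Ω) (hbd : Bornology.IsBounded Ω) (hb : Orthonormal ℝ b) :
    FormBdd (Ω ∩ V) fun x => 1 / 4 * wall Ω b x := by
  have hm : MeasurableSet (show Set H772R2.NS.E3 from Ω) :=
    IsOpen.measurableSet (α := H772R2.NS.E3) hΩ
  have key : ∀ φ : R3 → ℝ, ContDiff ℝ ∞ φ → HasCompactSupport φ → tsupport φ ⊆ Ω ∩ V →
      ∫⁻ x in Ω ∩ V, ENNReal.ofReal (1 / 4 * wall Ω b x * φ x ^ 2)
        ≤ ENNReal.ofReal (∫ x, ‖fderiv ℝ φ x‖ ^ 2) := by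
    intro φ h1 h2 h3
    have g := wall_bound (Ω := (show Set H772R2.NS.E3 from Ω)) hΩ hbd (b := b) hb (φ := φ) h1 h2
      (h3.trans inter_subset_left)
    refine le_trans ?_ g
    calc ∫⁻ x in Ω ∩ V, ENNReal.ofReal (1 / 4 * wall Ω b x * φ x ^ 2)
        ≤ ∫⁻ x in Ω, ENNReal.ofReal (1 / 4 * wall Ω b x * φ x ^ 2) :=
          lintegral_mono_set inter_subset_left
      _ = ∫⁻ x in Ω, ENNReal.ofReal
            (1 / 4 * (∑ i, wpot (E := H772R2.NS.E3) Ω (b i) x) * φ x ^ 2) := by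
          refine setLIntegral_congr_fun hm fun x hx => ?_
          show ENNReal.ofReal (1 / 4 * wall Ω b x * φ x ^ 2) = _
          rw [wall_eq hx]
      _ ≤ _ := setLIntegral_le_lintegral _ _
  refine ⟨?_, fun x => by have := wall_nonneg Ω b x; positivity, key⟩
  have g1 : Measurable fun x : H772R2.NS.E3 => 1 / 4 * ∑ i, wpot (E := H772R2.NS.E3) Ω (b i) x :=
    (wall_meas (Ω := (show Set H772R2.NS.E3 from Ω)) hΩ hbd hb).const_mul _
  refine ⟨_, g1, ?_⟩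
  have g2 : ∀ᵐ x ∂(volume.restrict Ω),
      1 / 4 * wall Ω b x = 1 / 4 * ∑ i, wpot (E := H772R2.NS.E3) Ω (b i) x := by
    refine (ae_restrict_iff' hm).2 (Eventually.of_forall fun x hx => ?_)
    rw [wall_eq hx]
  exact ae_mono (Measure.restrict_mono inter_subset_left le_rfl) g2

/-- convex combinations of form bounded potentials are form bounded -/
theorem FormBdd.comb {O : Set R3} {W₁ W₂ : R3 → ℝ} (h₁ : FormBdd O W₁) (h₂ : FormBdd O W₂)
    {s t : ℝ} (hs : 0 ≤ s) (ht : 0 ≤ t) (hst : s + t ≤ 1) :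
    FormBdd O fun x => s * W₁ x + t * W₂ x := by
  refine ⟨(h₁.meas.const_mul s).add (h₂.meas.const_mul t),
    fun x => add_nonneg (mul_nonneg hs (h₁.nonneg x)) (mul_nonneg ht (h₂.nonneg x)),
    fun φ k1 k2 k3 => ?_⟩
  have b1 := h₁.bound φ k1 k2 k3
  have b2 := h₂.bound φ k1 k2 k3
  have hφm : Measurable (show H772R2.NS.E3 → ℝ from φ) :=
    Continuous.measurable (α := H772R2.NS.E3) k1.continuous
  have hD : 0 ≤ ∫ x, ‖fderiv ℝ φ x‖ ^ 2 := integral_nonneg fun x => by positivity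
  calc ∫⁻ x in O, ENNReal.ofReal ((s * W₁ x + t * W₂ x) * φ x ^ 2)
      = ∫⁻ x in O, (ENNReal.ofReal s * ENNReal.ofReal (W₁ x * φ x ^ 2)
          + ENNReal.ofReal t * ENNReal.ofReal (W₂ x * φ x ^ 2)) := by
        refine lintegral_congr fun x => ?_
        rw [← ENNReal.ofReal_mul hs, ← ENNReal.ofReal_mul ht, ← ENNReal.ofReal_add
          (mul_nonneg hs (mul_nonneg (h₁.nonneg x) (sq_nonneg _)))
          (mul_nonneg ht (mul_nonneg (h₂.nonneg x) (sq_nonneg _)))]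
        congr 1
        ring
    _ = (∫⁻ x in O, ENNReal.ofReal s * ENNReal.ofReal (W₁ x * φ x ^ 2))
          + ∫⁻ x in O, ENNReal.ofReal t * ENNReal.ofReal (W₂ x * φ x ^ 2) := by
        refine lintegral_add_left' ?_ _
        exact ((h₁.meas.mul (hφm.pow_const 2).aemeasurable).ennreal_ofReal).const_mul _
    _ = ENNReal.ofReal s * (∫⁻ x in O, ENNReal.ofReal (W₁ x * φ x ^ 2))
          + ENNReal.ofReal t * ∫⁻ x in O, ENNReal.ofReal (W₂ x * φ x ^ 2) := by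
        rw [lintegral_const_mul' _ _ ENNReal.ofReal_ne_top,
          lintegral_const_mul' _ _ ENNReal.ofReal_ne_top]
    _ ≤ ENNReal.ofReal s * ENNReal.ofReal (∫ x, ‖fderiv ℝ φ x‖ ^ 2)
          + ENNReal.ofReal t * ENNReal.ofReal (∫ x, ‖fderiv ℝ φ x‖ ^ 2) := by gcongr
    _ = ENNReal.ofReal ((s + t) * ∫ x, ‖fderiv ℝ φ x‖ ^ 2) := by
        rw [← ENNReal.ofReal_mul hs, ← ENNReal.ofReal_mul ht,
          ← ENNReal.ofReal_add (mul_nonneg hs hD) (mul_nonneg ht hD), add_mul]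
    _ ≤ ENNReal.ofReal (∫ x, ‖fderiv ℝ φ x‖ ^ 2) := by
        refine ENNReal.ofReal_le_ofReal ?_
        nlinarith

/-- the mixed potential -/
noncomputable def mix (Ω : Set R3) (b : Fin 3 → R3) (y : R3) (p q : ℝ) (x : R3) : ℝ :=
  p / (p + q) * (1 / 4 * wall Ω b x) + q / (p + q) * (4 * ‖x - y‖ ^ 2)⁻¹

theorem mix_formBdd (hΩ : IsOpen Ω) (hbd : Bornology.IsBounded Ω) (hb : Orthonormal ℝ b) (y : R3)
    {p q : ℝ} (hp : 0 ≤ p) (hq : 0 ≤ q) : FormBdd (Ω ∩ V) (mix Ω b y p q) := by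
  refine FormBdd.comb (wall_formBdd hΩ hbd hb) (hardy_formBdd (Ω ∩ V) y) (by positivity)
    (by positivity) ?_
  rw [← add_div]
  exact div_self_le_one _

theorem mix_eq (y : R3) {p q : ℝ} (hp : 0 ≤ p) (hq : 0 ≤ q) (x : R3) :
    4 * (p + q) * mix Ω b y p q x = p * wall Ω b x + q / ‖x - y‖ ^ 2 := by
  unfold mix
  rcases (add_nonneg hp hq).eq_or_lt with h | h
  · have h1 : p = 0 := by linarith
    have h2 : q = 0 := by linarith
    simp [h1, h2]
  · rw [mul_inv]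
    field_simp

theorem mix_nonneg (y : R3) {p q : ℝ} (hp : 0 ≤ p) (hq : 0 ≤ q) (x : R3) :
    0 ≤ mix Ω b y p q x := by
  have := wall_nonneg Ω b x
  unfold mix
  positivity

theorem mix_sqrt (y : R3) {p q : ℝ} (hp : 0 ≤ p) (hq : 0 ≤ q) (x : R3) :
    p * Real.sqrt (wall Ω b x) + q / ‖x - y‖ ≤ (p + q) * (2 * Real.sqrt (mix Ω b y p q x)) := by
  have hw := wall_nonneg Ω b x
  have hm := mix_nonneg (Ω := Ω) (b := b) y hp hq x
  have h0 : 0 ≤ (p + q) * (2 * Real.sqrt (mix Ω b y p q x)) := by positivity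
  refine abs_le_of_sq_le_sq' ?_ h0 |>.2
  have e1 : ((p + q) * (2 * Real.sqrt (mix Ω b y p q x))) ^ 2
      = (p + q) * (4 * (p + q) * mix Ω b y p q x) := by
    rw [mul_pow, mul_pow, Real.sq_sqrt hm]
    ring
  rw [e1, mix_eq y hp hq]
  have e2 : q / ‖x - y‖ ^ 2 = q * (1 / ‖x - y‖) ^ 2 := by
    rw [div_pow, one_pow]
    ring
  have e3 : q / ‖x - y‖ = q * (1 / ‖x - y‖) := by ring
  rw [e2, e3]
  set z := 1 / ‖x - y‖
  have e4 : wall Ω b x = Real.sqrt (wall Ω b x) ^ 2 := (Real.sq_sqrt hw).symm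
  set w := Real.sqrt (wall Ω b x)
  rw [e4]
  nlinarith [mul_nonneg (mul_nonneg hp hq) (sq_nonneg (w - z))]

end Run7.h283.NS
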