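import Pool.Agent.R772.LI10
import Pool.Agent.Run7.h283.NS.PubConc
import Pool.Agent.Run7.h283.NS.Wall1

/-!
Potentials in `L^{3/2}` are form bounded (Sobolev and Hoelder inequality).
-/

set_option autoImplicit false

open MeasureTheory Set Filter Topology
open scoped InnerProductSpace ENNReal ContDiff NNReal

namespace Run7.h283.NS

section inner

open H772R2.NS

/-- the Sobolev constant, at least one -/
noncomputable def SC : ℝ := (eLpNormLESNormFDerivOfEqInnerConst (volume : Measure E3) 2 : ℝ) + 1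

theorem SC_ge : 1 ≤ SC := by
  unfold SC
  have := (eLpNormLESNormFDerivOfEqInnerConst (volume : Measure E3) 2).coe_nonneg
  linarith

theorem SC_pos : 0 < SC := lt_of_lt_of_le one_pos SC_ge

theorem sobolev_real {φ : E3 → ℝ} (h1 : ContDiff ℝ ∞ φ) (h2 : HasCompactSupport φ) :
    eLpNorm φ 6 (volume : Measure E3)
      ≤ ENNReal.ofReal SC * eLpNorm (fderiv ℝ φ) 2 (volume : Measure E3) := by
  have h := eLpNorm_le_eLpNorm_fderiv_of_eq_inner (volume : Measure E3)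
    (h1.of_le (by exact_mod_cast le_top)) h2 (p := 2) (p' := 6) (by norm_num) (by simp)
    (by simp; norm_num)
  have h' : eLpNorm φ 6 (volume : Measure E3)
      ≤ (eLpNormLESNormFDerivOfEqInnerConst (volume : Measure E3) 2 : ℝ≥0∞)
        * eLpNorm (fderiv ℝ φ) 2 (volume : Measure E3) := by simpa using h
  refine h'.trans ?_
  gcongr
  rw [← ENNReal.ofReal_coe_nnreal]
  exact ENNReal.ofReal_le_ofReal (by unfold SC; linarith)

theorem eLpNorm_six {φ : E3 → ℝ} (μ : Measure E3) :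
    (∫⁻ x, (ENNReal.ofReal (φ x ^ 2)) ^ (3 : ℝ) ∂μ) ^ (1 / (3 : ℝ)) = eLpNorm φ 6 μ ^ (2 : ℝ) := by
  rw [eLpNorm_eq_lintegral_rpow_enorm_toReal (by norm_num) (by norm_num), ← ENNReal.rpow_mul]
  have e1 : ∀ x, (ENNReal.ofReal (φ x ^ 2)) ^ (3 : ℝ) = ‖φ x‖ₑ ^ (6 : ℝ≥0∞).toReal := by
    intro x
    rw [← ofReal_norm, ← sq_abs, ← Real.norm_eq_abs, ENNReal.ofReal_pow (norm_nonneg _),
      ← ENNReal.rpow_natCast, ← ENNReal.rpow_mul]
    congr 1
    norm_num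
  simp_rw [e1]
  congr 1
  norm_num

/-- the form bound -/
theorem L32_bound (O : Set E3) {g : E3 → ℝ} (hg : AEMeasurable g (volume.restrict O))
    (h0 : ∀ x, 0 ≤ g x) {δ : ℝ} (hδ : 0 < δ)
    (h : eLpNorm g (3 / 2) (volume.restrict O) ≤ ENNReal.ofReal δ) {φ : E3 → ℝ}
    (h1 : ContDiff ℝ ∞ φ) (h2 : HasCompactSupport φ) :
    ∫⁻ x in O, ENNReal.ofReal (g x / (SC ^ 2 * δ) * φ x ^ 2)
      ≤ ENNReal.ofReal (∫ x, ‖fderiv ℝ φ x‖ ^ 2) := by
  have hS := SC_pos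
  have hφm : Measurable φ := h1.continuous.measurable
  have hpq : (3 / 2 : ℝ).HolderConjugate 3 := by
    rw [Real.holderConjugate_iff]
    norm_num
  have hA : (∫⁻ x in O, (ENNReal.ofReal (g x)) ^ (3 / 2 : ℝ)) ^ (1 / (3 / 2 : ℝ))
      ≤ ENNReal.ofReal δ := by
    refine le_trans (le_of_eq ?_) h
    rw [eLpNorm_eq_lintegral_rpow_enorm_toReal (by norm_num)
      (ENNReal.div_ne_top (by norm_num) (by norm_num))]
    have e1 : ((3 : ℝ≥0∞) / 2).toReal = 3 / 2 := by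
      rw [ENNReal.toReal_div]
      norm_num
    rw [e1]
    congr 1
    refine lintegral_congr fun x => ?_
    rw [← ofReal_norm, Real.norm_eq_abs, abs_of_nonneg (h0 x)]
  have hB : (∫⁻ x in O, (ENNReal.ofReal (φ x ^ 2)) ^ (3 : ℝ)) ^ (1 / (3 : ℝ))
      ≤ (ENNReal.ofReal SC * eLpNorm (fderiv ℝ φ) 2 (volume : Measure E3)) ^ (2 : ℝ) := by
    rw [eLpNorm_six]
    refine ENNReal.rpow_le_rpow ?_ (by norm_num)
    exact (eLpNorm_mono_measure _ Measure.restrict_le_self).trans (sobolev_real h1 h2)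
  have hdc : Continuous fun x => fderiv ℝ φ x := h1.continuous_fderiv (by norm_num)
  have hint : Integrable (fun x => ‖fderiv ℝ φ x‖ ^ 2) (volume : Measure E3) :=
    Continuous.integrable_of_hasCompactSupport (hdc.norm.pow 2)
      ((h2.fderiv ℝ).comp_left (g := fun L : E3 →L[ℝ] ℝ => ‖L‖ ^ 2) (by simp))
  have hD : eLpNorm (fderiv ℝ φ) 2 (volume : Measure E3) ^ (2 : ℝ)
      = ENNReal.ofReal (∫ x, ‖fderiv ℝ φ x‖ ^ 2) := by
    rw [eLpNorm_eq_lintegral_rpow_enorm_toReal (by norm_num) (by norm_num), ← ENNReal.rpow_mul,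
      ofReal_integral_eq_lintegral_ofReal hint (Eventually.of_forall fun x => by positivity)]
    have e1 : ∀ x, ‖fderiv ℝ φ x‖ₑ ^ (2 : ℝ≥0∞).toReal = ENNReal.ofReal (‖fderiv ℝ φ x‖ ^ 2) := by
      intro x
      rw [← ofReal_norm, ENNReal.ofReal_pow (norm_nonneg _), ← ENNReal.rpow_natCast]
      norm_num
    simp_rw [e1]
    norm_num
  calc ∫⁻ x in O, ENNReal.ofReal (g x / (SC ^ 2 * δ) * φ x ^ 2)
      = ∫⁻ x in O, ENNReal.ofReal (SC ^ 2 * δ)⁻¹ *
          ((fun x => ENNReal.ofReal (g x)) * fun x => ENNReal.ofReal (φ x ^ 2)) x := by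
        refine lintegral_congr fun x => ?_
        rw [Pi.mul_apply, ← ENNReal.ofReal_mul (h0 x), ← ENNReal.ofReal_mul (by positivity)]
        congr 1
        rw [div_eq_mul_inv]
        ring
    _ = ENNReal.ofReal (SC ^ 2 * δ)⁻¹ * ∫⁻ x in O,
          ((fun x => ENNReal.ofReal (g x)) * fun x => ENNReal.ofReal (φ x ^ 2)) x :=
        lintegral_const_mul' _ _ ENNReal.ofReal_ne_top
    _ ≤ ENNReal.ofReal (SC ^ 2 * δ)⁻¹ * (ENNReal.ofReal δ *
          (ENNReal.ofReal SC * eLpNorm (fderiv ℝ φ) 2 (volume : Measure E3)) ^ (2 : ℝ)) := by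
        gcongr
        refine (ENNReal.lintegral_mul_le_Lp_mul_Lq _ hpq hg.ennreal_ofReal
          ((hφm.pow_const 2).ennreal_ofReal).aemeasurable).trans ?_
        gcongr
    _ = ENNReal.ofReal (∫ x, ‖fderiv ℝ φ x‖ ^ 2) := by
        rw [ENNReal.mul_rpow_of_nonneg _ _ (by norm_num), hD,
          ENNReal.ofReal_rpow_of_pos hS, ← mul_assoc, ← mul_assoc,
          ← ENNReal.ofReal_mul (by positivity), ← ENNReal.ofReal_mul (by positivity)]
        have : (SC ^ 2 * δ)⁻¹ * δ * SC ^ (2 : ℝ) = 1 := by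
          rw [Real.rpow_two]
          field_simp
        rw [this, ENNReal.ofReal_one, one_mul]

end inner

open H772R2.NS.Pub Pool.Agent.W795.TQ Pool.Agent.R462.HC Pool.Agent.R772.LI
open Pool.Agent.W795.ES (stretch outer)

theorem L32_formBdd {O : Set R3} {g : R3 → ℝ} (hg : AEMeasurable g (volume.restrict O))
    (h0 : ∀ x, 0 ≤ g x) {δ : ℝ} (hδ : 0 < δ)
    (h : eLpNorm g (3 / 2) (volume.restrict O) ≤ ENNReal.ofReal δ) :
    FormBdd O fun x => g x / (SC ^ 2 * δ) where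
  meas := hg.div_const _
  nonneg := fun x => div_nonneg (h0 x) (mul_nonneg (sq_nonneg _) hδ.le)
  bound := fun _ h1 h2 _ => L32_bound (show Set H772R2.NS.E3 from O) hg h0 hδ h h1 h2

theorem L3_formBdd {O : Set R3} {g : R3 → ℝ} (hg : AEMeasurable g (volume.restrict O))
    {δ : ℝ} (hδ : 0 < δ)
    (h : eLpNorm g 3 (volume.restrict O) ≤ ENNReal.ofReal δ) :
    FormBdd O fun x => g x ^ 2 / (SC ^ 2 * δ ^ 2) := by
  refine L32_formBdd (hg.pow_const 2) (fun x => sq_nonneg _) (by positivity) ?_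
  rw [ENNReal.ofReal_pow hδ.le]
  refine le_trans (le_of_eq ?_) (pow_le_pow_left₀ (by positivity) h 2)
  rw [eLpNorm_eq_lintegral_rpow_enorm_toReal (by norm_num)
      (ENNReal.div_ne_top (by norm_num) (by norm_num)),
    eLpNorm_eq_lintegral_rpow_enorm_toReal (by norm_num) (by norm_num), ← ENNReal.rpow_natCast,
    ← ENNReal.rpow_mul]
  have e1 : ((3 : ℝ≥0∞) / 2).toReal = 3 / 2 := by
    rw [ENNReal.toReal_div]
    norm_num
  have e2 : (3 : ℝ≥0∞).toReal = 3 := by norm_num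
  rw [e1, e2]
  have e3 : ∀ x, ‖g x ^ 2‖ₑ ^ (3 / 2 : ℝ) = ‖g x‖ₑ ^ (3 : ℝ) := by
    intro x
    rw [← ofReal_norm, ← ofReal_norm, norm_pow, ENNReal.ofReal_pow (norm_nonneg _),
      ← ENNReal.rpow_natCast, ← ENNReal.rpow_mul]
    norm_num
  simp_rw [e3]
  norm_num

/-- the weighted combination of two potentials -/
noncomputable def cmb (W₁ W₂ : R3 → ℝ) (p q : ℝ) (x : R3) : ℝ :=
  p / (p + q) * W₁ x + q / (p + q) * W₂ x

theorem cmb_formBdd {O : Set R3} {W₁ W₂ : R3 → ℝ} (h₁ : FormBdd O W₁) (h₂ : FormBdd O W₂)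
    {p q : ℝ} (hp : 0 ≤ p) (hq : 0 ≤ q) : FormBdd O (cmb W₁ W₂ p q) := by
  refine FormBdd.comb h₁ h₂ (by positivity) (by positivity) ?_
  rw [← add_div]
  exact div_self_le_one _

theorem cmb_eq {W₁ W₂ : R3 → ℝ} {p q : ℝ} (hp : 0 ≤ p) (hq : 0 ≤ q) (x : R3) :
    (p + q) * cmb W₁ W₂ p q x = p * W₁ x + q * W₂ x := by
  unfold cmb
  rcases (add_nonneg hp hq).eq_or_lt with h | h
  · have h1 : p = 0 := by linarith
    have h2 : q = 0 := by linarith
    simp [h1, h2]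
  · field_simp

theorem cmb_sqrt {W₁ W₂ : R3 → ℝ} {p q : ℝ} (hp : 0 ≤ p) (hq : 0 ≤ q) {x : R3} (h₁ : 0 ≤ W₁ x)
    (h₂ : 0 ≤ W₂ x) :
    p * Real.sqrt (W₁ x) + q * Real.sqrt (W₂ x) ≤ (p + q) * Real.sqrt (cmb W₁ W₂ p q x) := by
  have hm : 0 ≤ cmb W₁ W₂ p q x := by unfold cmb; positivity
  have h0 : 0 ≤ (p + q) * Real.sqrt (cmb W₁ W₂ p q x) := by positivity
  refine abs_le_of_sq_le_sq' ?_ h0 |>.2
  have e1 : ((p + q) * Real.sqrt (cmb W₁ W₂ p q x)) ^ 2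
      = (p + q) * ((p + q) * cmb W₁ W₂ p q x) := by
    rw [mul_pow, Real.sq_sqrt hm]
    ring
  rw [e1, cmb_eq hp hq]
  have e4 : W₁ x = Real.sqrt (W₁ x) ^ 2 := (Real.sq_sqrt h₁).symm
  have e5 : W₂ x = Real.sqrt (W₂ x) ^ 2 := (Real.sq_sqrt h₂).symm
  set w := Real.sqrt (W₁ x)
  set z := Real.sqrt (W₂ x)
  rw [e4, e5]
  nlinarith [mul_nonneg (mul_nonneg hp hq) (sq_nonneg (w - z))]

/-- quiet fields, from a bound of the compression -/
theorem quiet_of_strain {Ω V : Set R3} (hΩ : IsOpen Ω) {ν a B l c β : ℝ} (ha : 0 ≤ a)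
    (hν : 0 < ν) (hB : 0 ≤ B) (hl : 0 < l) (hc : a + l / 2 ≤ c) (hβ : B ≤ β) {U : L2 Ω R3}
    {G : L2 Ω Mat} (hU : (U, G) ∈ H1graph Ω) {W : R3 → ℝ} (hW : FormBdd (Ω ∩ V) W)
    (hy : ∀ᵐ x ∂(volume.restrict (Ω ∩ V)), ∀ ξ : R3,
      -(a * ν * W x + B) * ‖ξ‖ ^ 2 ≤ ⟪G.fn x, outer ξ⟫_ℝ) :
    Quiet V ν c β U := by
  refine ⟨U, G, 0, W, a, 0, l, B, 0,
    hU, contDiff_const, hW, ha, hl, hB, le_rfl,
    by simpa using hc, by simpa using hβ, ?_, ?_⟩
  · refine pub_form_of_pt hΩ hW (by positivity) hB ?_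
    filter_upwards [hy] with x hx ξ
    have h1 := hx ξ
    have h2 : fderiv ℝ (0 : R3 → R3) x ξ = 0 := by simp
    rw [h2, inner_zero_left, add_zero]
    linarith
  · refine Eventually.of_forall fun x => ?_
    simp

/-- quiet fields, from a bound of the velocity -/
theorem quiet_of_velocity {Ω V : Set R3} (hΩ : IsOpen Ω)
    {ν k B μ c β : ℝ} (hν : 0 < ν) (hk : 0 ≤ k) (hμ : 0 < μ) (hc : k + μ ≤ c)
    (hβ : B ^ 2 / (4 * μ * ν) ≤ β) {U : L2 Ω R3} {W : R3 → ℝ} (hW : FormBdd (Ω ∩ V) W)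
    {a : R3} {A : R3 →L[ℝ] R3} (hA : ∀ ξ, ⟪A ξ, ξ⟫_ℝ = 0)
    (hy : ∀ᵐ x ∂(volume.restrict (Ω ∩ V)), ‖U.fn x - (a + A x)‖ ≤ k * (ν * Real.sqrt (W x)) + B) :
    Quiet V ν c β U := by
  have hl : 0 < k + 2 * μ := by positivity
  have hz : ∀ᵐ x ∂(volume.restrict (Ω ∩ V)), (0 : L2 Ω Mat).fn x = 0 :=
    ae_mono (Measure.restrict_mono inter_subset_left le_rfl) (zero_fn Ω Mat)
  have hz3 : ∀ᵐ x ∂(volume.restrict (Ω ∩ V)), (0 : L2 Ω R3).fn x = 0 :=
    ae_mono (Measure.restrict_mono inter_subset_left le_rfl) (zero_fn Ω R3)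
  refine ⟨0, 0, fun x => a + A x, W, 0,
    Real.sqrt (k * (k + 2 * μ)), k + 2 * μ, 0, B ^ 2 / (4 * μ * ν),
    zero_mem_graph Ω, contDiff_const.add A.contDiff, hW,
    le_rfl, hl, le_rfl, by positivity, ?_, by simpa using hβ, ?_, ?_⟩
  · rw [Real.sq_sqrt (by positivity)]
    refine le_trans (le_of_eq ?_) hc
    field_simp
    ring
  · rw [show (0 : ℝ) * ν = 0 by ring]
    refine pub_form_of_pt hΩ hW le_rfl le_rfl ?_
    filter_upwards [hz] with x hx ξ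
    rw [hx, inner_zero_left]
    have h2 : fderiv ℝ (fun x => a + A x) x = A := by
      rw [fderiv_const_add]
      exact A.fderiv
    rw [h2, hA]
    simp
  · filter_upwards [hy, hz3] with x hx h0
    rw [h0, sub_zero, Real.sq_sqrt (by positivity)]
    have h1 : ‖U.fn x - (a + A x)‖ ^ 2 ≤ (k * (ν * Real.sqrt (W x)) + B) ^ 2 :=
      pow_le_pow_left₀ (norm_nonneg _) hx 2
    refine h1.trans ?_
    have h2 := young_pt (a := ν * Real.sqrt (W x)) (B := B) hk (show 0 < 2 * μ by positivity)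
    refine h2.trans (le_of_eq ?_)
    have e2 : 2 * (k + 2 * μ) * ν * (B ^ 2 / (4 * μ * ν)) = (k + 2 * μ) / (2 * μ) * B ^ 2 := by
      field_simp
      ring
    rw [e2, mul_pow, Real.sq_sqrt (hW.nonneg x)]
    ring

end Run7.h283.NS
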