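import Pool.Agent.Run7.h283.NS.Conc1

/-!
Quiet fields from bounds up to a part which is small in a critical norm.
-/

set_option autoImplicit false

open MeasureTheory Set Filter Topology
open scoped InnerProductSpace ENNReal ContDiff NNReal

namespace Run7.h283.NS

open H772R2.NS.Pub Pool.Agent.W795.TQ Pool.Agent.R462.HC Pool.Agent.R772.LI
open Pool.Agent.W795.ES (stretch outer)

theorem norm_outer (ξ : R3) : ‖outer ξ‖ = ‖ξ‖ ^ 2 := by
  have h := H772R2.NS.norm_tens ξ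
  have h2 := outer_tens ξ
  exact (congrArg (fun m : H772R2.NS.M3 => ‖m‖) h2).trans h

theorem strain_upto {Ω V : Set R3} (hΩ : IsOpen Ω)
    {ν κ B δ l c β : ℝ} (hν : 0 < ν) (hκ : 0 ≤ κ) (hδ : 0 < δ)
    (hB : 0 ≤ B) (hl : 0 < l) (hc : 4 * κ + SC ^ 2 * δ + l / 2 ≤ c) (hβ : B ≤ β) {U : L2 Ω R3}
    {G : L2 Ω Mat} (hU : (U, G) ∈ H1graph Ω) (hs : StrainUpTo V (κ * ν) B (δ * ν) G) :
    Quiet V ν c β U := by
  obtain ⟨y, g, hg, h0, hgn, hy⟩ := hs
  have hS := SC_pos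
  have hW1 := hardy_formBdd (Ω ∩ V) y
  have hW2 := L32_formBdd hg h0 (mul_pos hδ hν) hgn
  have hp : 0 ≤ 4 * κ := by positivity
  have hq : 0 ≤ SC ^ 2 * δ := by positivity
  refine quiet_of_strain (W := cmb _ _ (4 * κ) (SC ^ 2 * δ)) (a := 4 * κ + SC ^ 2 * δ) hΩ
    (by positivity) hν hB hl hc hβ hU
    (cmb_formBdd hW1 hW2 hp hq) ?_
  filter_upwards [hy] with x hx ξ
  have h1 := hx ξ
  have h2 : (4 * κ + SC ^ 2 * δ) * ν * cmb (fun x => (4 * ‖x - y‖ ^ 2)⁻¹)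
      (fun x => g x / (SC ^ 2 * (δ * ν))) (4 * κ) (SC ^ 2 * δ) x
      = κ * ν / ‖x - y‖ ^ 2 + g x := by
    rw [show (4 * κ + SC ^ 2 * δ) * ν * cmb (fun x => (4 * ‖x - y‖ ^ 2)⁻¹)
      (fun x => g x / (SC ^ 2 * (δ * ν))) (4 * κ) (SC ^ 2 * δ) x
      = ν * ((4 * κ + SC ^ 2 * δ) * cmb (fun x => (4 * ‖x - y‖ ^ 2)⁻¹)
      (fun x => g x / (SC ^ 2 * (δ * ν))) (4 * κ) (SC ^ 2 * δ) x) by ring, cmb_eq hp hq]
    rw [mul_inv]
    field_simp
  rw [h2]
  calc -(κ * ν / ‖x - y‖ ^ 2 + g x + B) * ‖ξ‖ ^ 2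
      = -(κ * ν / ‖x - y‖ ^ 2 + B + g x) * ‖ξ‖ ^ 2 := by ring
    _ ≤ _ := h1

theorem velocity_upto {Ω V : Set R3} (hΩ : IsOpen Ω)
    {ν k B ε μ c β : ℝ} (hν : 0 < ν) (hk : 0 ≤ k) (hε : 0 < ε) (hμ : 0 < μ)
    (hc : 2 * k + SC * ε + μ ≤ c)
    (hβ : B ^ 2 / (4 * μ * ν) ≤ β) {U : L2 Ω R3} (hs : VelocityUpTo V (k * ν) B (ε * ν) U) :
    Quiet V ν c β U := by
  obtain ⟨y, a, A, g, hA, hg, h0, hgn, hy⟩ := hs
  have hS := SC_pos
  have hW1 := hardy_formBdd (Ω ∩ V) y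
  have hW2 := L3_formBdd hg (mul_pos hε hν) hgn
  have hp : 0 ≤ 2 * k := by positivity
  have hq : 0 ≤ SC * ε := by positivity
  refine quiet_of_velocity (W := cmb _ _ (2 * k) (SC * ε)) (k := 2 * k + SC * ε) (a := a) hΩ hν
    (by positivity) hμ hc hβ (cmb_formBdd hW1 hW2 hp hq) hA ?_
  filter_upwards [hy] with x hx
  refine hx.trans ?_
  have e1 : Real.sqrt ((4 * ‖x - y‖ ^ 2)⁻¹) = (2 * ‖x - y‖)⁻¹ := by
    rw [show (4 * ‖x - y‖ ^ 2)⁻¹ = ((2 * ‖x - y‖)⁻¹) ^ 2 by rw [inv_pow]; ring_nf]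
    exact Real.sqrt_sq (by positivity)
  have e2 : Real.sqrt (g x ^ 2 / (SC ^ 2 * (ε * ν) ^ 2)) = g x / (SC * (ε * ν)) := by
    rw [← mul_pow, ← div_pow]
    exact Real.sqrt_sq (div_nonneg (h0 x) (by positivity))
  have h3 := cmb_sqrt (W₁ := fun x => (4 * ‖x - y‖ ^ 2)⁻¹)
    (W₂ := fun x => g x ^ 2 / (SC ^ 2 * (ε * ν) ^ 2)) hp hq (x := x) (by positivity) (by positivity)
  rw [e1, e2] at h3
  have h4 := mul_le_mul_of_nonneg_left h3 hν.le
  have e3 : ν * (2 * k * (2 * ‖x - y‖)⁻¹ + SC * ε * (g x / (SC * (ε * ν))))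
      = k * ν / ‖x - y‖ + g x := by
    rw [mul_inv]
    field_simp
  rw [e3] at h4
  have e4 : ν * ((2 * k + SC * ε) * Real.sqrt (cmb (fun x => (4 * ‖x - y‖ ^ 2)⁻¹)
      (fun x => g x ^ 2 / (SC ^ 2 * (ε * ν) ^ 2)) (2 * k) (SC * ε) x))
      = (2 * k + SC * ε) * (ν * Real.sqrt (cmb (fun x => (4 * ‖x - y‖ ^ 2)⁻¹)
      (fun x => g x ^ 2 / (SC ^ 2 * (ε * ν) ^ 2)) (2 * k) (SC * ε) x)) := by ring
  rw [e4] at h4
  linarith

/-- every field with a square integrable gradient is quiet up to a multiple of the fourth power of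
the norm of the gradient -/
theorem quiet_global {Ω V : Set R3} (hΩ : IsOpen Ω)
    {ν δ l c β : ℝ} (hν : 0 < ν) (hδ : 0 < δ) (hl : 0 < l) (hc : SC ^ 2 * δ + l / 2 ≤ c)
    {U : L2 Ω R3} {G : L2 Ω Mat} (hU : (U, G) ∈ H1graph Ω)
    (hβ : ‖G‖ ^ 4 / (δ * ν) ^ 3 ≤ β) : Quiet V ν c β U := by
  have hδν : 0 < δ * ν := by positivity
  obtain ⟨B, hB⟩ : ∃ B : ℝ, B = ‖G‖ ^ 4 / (δ * ν) ^ 3 := ⟨_, rfl⟩
  have hB0 : 0 ≤ B := by rw [hB]; positivity
  refine strain_upto (κ := 0) (B := B) hΩ hν le_rfl hδ hB0 hl (by linarith) (by rw [hB]; exact hβ)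
    hU ?_
  -- the part of the gradient above the level `B`
  have hGm : AEStronglyMeasurable G.fn ((volume : Measure R3).restrict Ω) :=
    Lp.aestronglyMeasurable (show Lp Mat 2 ((volume : Measure R3).restrict Ω) from G)
  have hnm : AEMeasurable (fun x => ‖G.fn x‖) ((volume : Measure R3).restrict Ω) :=
    hGm.norm.aemeasurable
  have hgm : AEMeasurable (fun x => (Ioi B).indicator (fun r : ℝ => r) ‖G.fn x‖)
      ((volume : Measure R3).restrict Ω) :=
    (measurable_id.indicator measurableSet_Ioi).comp_aemeasurable hnm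
  have hg0 : ∀ x, 0 ≤ (Ioi B).indicator (fun r : ℝ => r) ‖G.fn x‖ := fun x => by
    refine indicator_nonneg (fun r (hr : B < r) => ?_) _
    linarith
  refine ⟨0, fun x => (Ioi B).indicator (fun r : ℝ => r) ‖G.fn x‖,
    hgm.mono_measure (Measure.restrict_mono inter_subset_left le_rfl), hg0, ?_, ?_⟩
  · refine (eLpNorm_mono_measure _ (Measure.restrict_mono inter_subset_left le_rfl)).trans ?_
    rw [eLpNorm_eq_lintegral_rpow_enorm_toReal (by norm_num)
      (ENNReal.div_ne_top (by norm_num) (by norm_num))]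
    have e1 : ((3 : ℝ≥0∞) / 2).toReal = 3 / 2 := by
      rw [ENNReal.toReal_div]
      norm_num
    rw [e1]
    have hG2 : ∫⁻ x in Ω, ENNReal.ofReal (‖G.fn x‖ ^ 2) = ENNReal.ofReal (‖G‖ ^ 2) := by
      have h1 : ‖G‖ = (eLpNorm G.fn 2 ((volume : Measure R3).restrict Ω)).toReal :=
        Lp.norm_def (show Lp Mat 2 ((volume : Measure R3).restrict Ω) from G)
      have h2 : eLpNorm G.fn 2 ((volume : Measure R3).restrict Ω) ≠ ⊤ :=
        Lp.eLpNorm_ne_top (show Lp Mat 2 ((volume : Measure R3).restrict Ω) from G)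
      rw [h1, ENNReal.ofReal_pow ENNReal.toReal_nonneg, ENNReal.ofReal_toReal h2,
        eLpNorm_eq_lintegral_rpow_enorm_toReal (by norm_num) (by norm_num), ← ENNReal.rpow_natCast,
        ← ENNReal.rpow_mul]
      have e3 : ∀ x, ‖G.fn x‖ₑ ^ (2 : ℝ≥0∞).toReal = ENNReal.ofReal (‖G.fn x‖ ^ 2) := by
        intro x
        rw [← ofReal_norm, ENNReal.ofReal_pow (norm_nonneg _), ← ENNReal.rpow_natCast]
        norm_num
      simp_rw [e3]
      norm_num
    rcases hB0.eq_or_lt with hBz | hBp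
    · -- the gradient vanishes
      have hG0 : ‖G‖ = 0 := by
        have : ‖G‖ ^ 4 / (δ * ν) ^ 3 = 0 := by rw [← hB, ← hBz]
        rcases div_eq_zero_iff.1 this with h | h
        · exact pow_eq_zero_iff (by norm_num) |>.1 h
        · exact absurd h (by positivity)
      rw [hG0] at hG2
      have h5 : ∀ᵐ x ∂((volume : Measure R3).restrict Ω), ‖G.fn x‖ = 0 := by
        have h6 : ∫⁻ x in Ω, ENNReal.ofReal (‖G.fn x‖ ^ 2) = 0 := by rw [hG2]; simp
        rw [lintegral_eq_zero_iff' ((hnm.pow_const 2).ennreal_ofReal)] at h6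
        filter_upwards [h6] with x hx
        have h7 : ENNReal.ofReal (‖G.fn x‖ ^ 2) = 0 := hx
        rw [ENNReal.ofReal_eq_zero] at h7
        have h8 : ‖G.fn x‖ ^ 2 = 0 := le_antisymm h7 (sq_nonneg _)
        exact pow_eq_zero_iff (by norm_num) |>.1 h8
      have h9 : ∫⁻ x in Ω, ‖(Ioi B).indicator (fun r : ℝ => r) ‖G.fn x‖‖ₑ ^ (3 / 2 : ℝ) = 0 := by
        rw [lintegral_congr_ae (g := fun _ => 0)]
        · simp
        · filter_upwards [h5] with x hx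
          rw [hx, ← hBz]
          simp
      rw [h9]
      simp
    · have h5 : ∀ x, ‖(Ioi B).indicator (fun r : ℝ => r) ‖G.fn x‖‖ₑ ^ (3 / 2 : ℝ)
          ≤ ENNReal.ofReal (B ^ (-(1 / 2) : ℝ)) * ENNReal.ofReal (‖G.fn x‖ ^ 2) := by
        intro x
        rw [← ENNReal.ofReal_mul (by positivity), ← ofReal_norm,
          ENNReal.ofReal_rpow_of_nonneg (norm_nonneg _) (by norm_num)]
        refine ENNReal.ofReal_le_ofReal ?_
        by_cases h : B < ‖G.fn x‖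
        · rw [indicator_of_mem (show ‖G.fn x‖ ∈ Ioi B from h), norm_norm]
          have h6 : 0 < ‖G.fn x‖ := hBp.trans h
          have e4 : ‖G.fn x‖ ^ (3 / 2 : ℝ) = ‖G.fn x‖ ^ (-(1 / 2) : ℝ) * ‖G.fn x‖ ^ 2 := by
            rw [← Real.rpow_natCast, ← Real.rpow_add h6]
            norm_num
          rw [e4]
          refine mul_le_mul_of_nonneg_right ?_ (by positivity)
          exact Real.rpow_le_rpow_of_nonpos hBp h.le (by norm_num)
        · rw [indicator_of_notMem (show ‖G.fn x‖ ∉ Ioi B from h), norm_zero,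
            Real.zero_rpow (by norm_num)]
          positivity
      calc (∫⁻ x in Ω, ‖(Ioi B).indicator (fun r : ℝ => r) ‖G.fn x‖‖ₑ ^ (3 / 2 : ℝ)) ^ (1 / (3 / 2) : ℝ)
          ≤ (∫⁻ x in Ω, ENNReal.ofReal (B ^ (-(1 / 2) : ℝ)) * ENNReal.ofReal (‖G.fn x‖ ^ 2))
              ^ (1 / (3 / 2) : ℝ) :=
            ENNReal.rpow_le_rpow (lintegral_mono h5) (by norm_num)
        _ = ENNReal.ofReal ((B ^ (-(1 / 2) : ℝ) * ‖G‖ ^ 2) ^ (1 / (3 / 2) : ℝ)) := by
            rw [lintegral_const_mul' _ _ ENNReal.ofReal_ne_top, hG2,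
              ← ENNReal.ofReal_mul (by positivity),
              ENNReal.ofReal_rpow_of_nonneg (by positivity) (by norm_num)]
        _ ≤ ENNReal.ofReal (δ * ν) := by
            refine ENNReal.ofReal_le_ofReal (le_of_eq ?_)
            have hGp : 0 < ‖G‖ := by
              rcases (norm_nonneg G).eq_or_lt with h | h
              · rw [← h] at hB
                norm_num at hB
                linarith
              · exact h
            have e5 : B ^ (-(1 / 2) : ℝ) * ‖G‖ ^ 2 = (δ * ν) ^ (3 / 2 : ℝ) := by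
              rw [hB, Real.div_rpow (by positivity) (by positivity), ← Real.rpow_natCast ‖G‖ 4,
                ← Real.rpow_natCast ‖G‖ 2, ← Real.rpow_natCast (δ * ν) 3, ← Real.rpow_mul hGp.le,
                ← Real.rpow_mul hδν.le, div_mul_eq_mul_div, ← Real.rpow_add hGp]
              norm_num
              rw [Real.rpow_neg hδν.le, inv_inv]
            rw [e5, ← Real.rpow_mul hδν.le]
            norm_num
  · have hsub : ∀ x, ∀ ξ : R3, -⟪G.fn x, outer ξ⟫_ℝ ≤ ‖G.fn x‖ * ‖ξ‖ ^ 2 := by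
      intro x ξ
      have h1 := abs_real_inner_le_norm (G.fn x) (outer ξ)
      have h2 : ‖outer ξ‖ = ‖ξ‖ ^ 2 := norm_outer ξ
      rw [h2] at h1
      have := (abs_le.1 h1).1
      linarith
    refine Eventually.of_forall fun x ξ => ?_
    have h3 := hsub x ξ
    have h4 : ‖G.fn x‖ ≤ B + (Ioi B).indicator (fun r : ℝ => r) ‖G.fn x‖ := by
      by_cases h : B < ‖G.fn x‖
      · rw [indicator_of_mem (show ‖G.fn x‖ ∈ Ioi B from h)]
        linarith
      · rw [indicator_of_notMem (show ‖G.fn x‖ ∉ Ioi B from h)]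
        linarith
    have h5 := mul_le_mul_of_nonneg_right h4 (sq_nonneg ‖ξ‖)
    have h6 : (0 * ν / ‖x - 0‖ ^ 2 + B + (Ioi B).indicator (fun r : ℝ => r) ‖G.fn x‖)
        = B + (Ioi B).indicator (fun r : ℝ => r) ‖G.fn x‖ := by
      rw [zero_mul, zero_div, zero_add]
    rw [h6]
    linarith

end Run7.h283.NS
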