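import Pool.Agent.Run7.h283.NS.Conc2

/-!
Times of concentration at a first singular time.
-/

set_option autoImplicit false

open MeasureTheory Set Filter Topology
open scoped InnerProductSpace ENNReal ContDiff NNReal

namespace Run7.h283.NS

open H772R2.NS.Pub Pool.Agent.W795.TQ Pool.Agent.R462.HC Pool.Agent.R772.LI
open Pool.Agent.W795.ES (stretch outer)

theorem StrainUpTo.mono {Ω V V' : Set R3} (h : V' ⊆ V) {κ B δ : ℝ} {G : L2 Ω Mat}
    (hs : StrainUpTo V κ B δ G) : StrainUpTo V' κ B δ G := by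
  obtain ⟨y, g, h1, h2, h3, h4⟩ := hs
  have hm : (volume : Measure R3).restrict (Ω ∩ V') ≤ volume.restrict (Ω ∩ V) :=
    Measure.restrict_mono (inter_subset_inter_right Ω h) le_rfl
  exact ⟨y, g, h1.mono_measure hm, h2, (eLpNorm_mono_measure _ hm).trans h3, ae_mono hm h4⟩

theorem VelocityUpTo.mono {Ω V V' : Set R3} (h : V' ⊆ V) {κ B δ : ℝ} {u : L2 Ω R3}
    (hs : VelocityUpTo V κ B δ u) : VelocityUpTo V' κ B δ u := by
  obtain ⟨y, a, A, g, hA, h1, h2, h3, h4⟩ := hs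
  have hm : (volume : Measure R3).restrict (Ω ∩ V') ≤ volume.restrict (Ω ∩ V) :=
    Measure.restrict_mono (inter_subset_inter_right Ω h) le_rfl
  exact ⟨y, a, A, g, hA, h1.mono_measure hm, h2, (eLpNorm_mono_measure _ hm).trans h3,
    ae_mono hm h4⟩

/-- the Sobolev constant of the theorem -/
noncomputable def S0 : ℝ := SC ^ 2

theorem S0_pos : 0 < S0 := pow_pos SC_pos 2

theorem SC_le_S0 : SC ≤ S0 := by
  have := SC_ge
  unfold S0
  nlinarith

/-- the two bounds in the ball of radius `R` around `x`, at the distance `δ` from the singular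
time -/
def Slow {Ω : Set R3} (ν κ b k K η ε δ : ℝ) (V : Set R3) (G : L2 Ω Mat) (U : L2 Ω R3) : Prop :=
  StrainUpTo V (κ * ν) (b / δ) (η * ν) G ∨ VelocityUpTo V (k * ν) (K * Real.sqrt (ν / δ)) (ε * ν) U

theorem slow_quiet {Ω : Set R3} (hΩ : IsOpen Ω)
    {ν κ b k K η ε m δ : ℝ} (hν : 0 < ν) (hδ : 0 < δ)
    (hκ : 0 ≤ κ) (hb : 0 ≤ b) (hk : 0 ≤ k) (hη : 0 < η) (hε : 0 < ε) (hm : 0 < m)
    (h1 : 4 * κ + S0 * η + m ≤ 1) (h2 : b + m ≤ 3 / 4)
    (h3 : K ^ 2 ≤ 3 * (1 - 2 * k - S0 * ε - m))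
    {U : L2 Ω R3} {G : L2 Ω Mat} (hU : (U, G) ∈ H1graph Ω) {V : Set R3}
    (hs : Slow ν κ b k K η ε δ V G U) :
    Quiet V ν (1 - m / 2) ((3 / 4 - 3 / 8 * m) / δ) U := by
  rcases hs with hs | hs
  · refine strain_upto (l := m) (κ := κ) (δ := η) hΩ hν hκ hη (div_nonneg hb hδ.le) hm ?_ ?_ hU hs
    · unfold S0 at h1
      linarith
    · exact div_le_div_of_nonneg_right (by linarith) hδ.le
  · have hS := SC_pos
    have hSS := mul_le_mul_of_nonneg_right SC_le_S0 hε.le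
    have hkk : 0 ≤ 2 * k + SC * ε := by positivity
    have hμ : 0 < 1 - (2 * k + SC * ε) - m / 2 := by nlinarith [sq_nonneg K]
    refine velocity_upto (μ := 1 - (2 * k + SC * ε) - m / 2) hΩ hν hk hε hμ (by linarith) ?_ hs
    rw [mul_pow, Real.sq_sqrt (by positivity)]
    have e1 : K ^ 2 * (ν / δ) / (4 * (1 - (2 * k + SC * ε) - m / 2) * ν)
        = K ^ 2 / (4 * (1 - (2 * k + SC * ε) - m / 2)) / δ := by
      field_simp
    rw [e1]
    refine div_le_div_of_nonneg_right ?_ hδ.le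
    rw [div_le_iff₀ (by positivity)]
    nlinarith [mul_nonneg hm.le hkk, mul_pos hm hm]

/-- the constant of the rate at the exceptional times -/
noncomputable def C1 (ν : ℝ) : ℝ := 64 * S0 ^ 3 / ν ^ 3

theorem C1_pos {ν : ℝ} (hν : 0 < ν) : 0 < C1 ν := by
  have := S0_pos
  unfold C1
  positivity

theorem all_quiet {Ω V : Set R3} (hΩ : IsOpen Ω) {ν c β : ℝ} (hν : 0 < ν)
    (hc : 1 / 2 ≤ c) {U : L2 Ω R3} {G : L2 Ω Mat} (hU : (U, G) ∈ H1graph Ω)
    (hβ : C1 ν * ‖G‖ ^ 4 ≤ β) : Quiet V ν c β U := by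
  have hS := S0_pos
  refine quiet_global (δ := 1 / (4 * S0)) (l := 1 / 2) hΩ hν (by positivity) (by norm_num) ?_ hU ?_
  · have : SC ^ 2 * (1 / (4 * S0)) = 1 / 4 := by
      show S0 * (1 / (4 * S0)) = 1 / 4
      field_simp
    rw [this]
    linarith
  · refine le_trans (le_of_eq ?_) hβ
    unfold C1
    field_simp
    norm_num

/-- the rate on the exceptional set -/
noncomputable def rate {Ω : Set R3} (E : Set ℝ) (G : ℝ → L2 Ω Mat) (t : ℝ) : ℝ :=
  E.indicator (fun a => ‖G a‖ ^ 4) t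

theorem rate_nonneg {Ω : Set R3} (E : Set ℝ) (G : ℝ → L2 Ω Mat) (t : ℝ) : 0 ≤ rate E G t :=
  indicator_nonneg (fun _ _ => by positivity) t

theorem rate_int {Ω : Set R3} (hΩ : IsOpen Ω) {ν T τ : ℝ} (hτ : τ ≤ T) {F : ℝ → L2 Ω Mat}
    {u : ℝ → L2 Ω R3} {G : ℝ → L2 Ω Mat} (L : IsLerayHopf Ω ν T F u G)
    (h1 : ∀ t ∈ Ioo 0 τ, ∃ u' G1 G', IsStrong Ω ν t F u u' G1 G') {E : Set ℝ}
    (hE : MeasurableSet E) {s t : ℝ} (hs : 0 ≤ s) (ht : t ∈ Ioo s τ) :
    IntervalIntegrable (rate E G) volume s t := by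
  have ht0 : 0 < t := hs.trans_lt ht.1
  obtain ⟨u', G1, G', hst⟩ := h1 t ⟨ht0, ht.2⟩
  have hG : ∀ᵐ a ∂(volume.restrict (Ioc 0 t)), (u a, G a) ∈ H1graph Ω :=
    ae_mono (Measure.restrict_mono (Ioc_subset_Ioc_right (ht.2.le.trans hτ)) le_rfl) L.grad
  obtain ⟨M, hM⟩ := Pool.Agent.TH340.FF.grad_bdd hΩ hst hG
  have hsub : Ioc s t ⊆ Ioc 0 t := Ioc_subset_Ioc_left hs
  rw [intervalIntegrable_iff_integrableOn_Ioc_of_le ht.1.le]
  have hm : AEStronglyMeasurable G (volume.restrict (Ioc 0 T)) := L.gradL2.1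
  have hm2 : AEStronglyMeasurable G (volume.restrict (Ioc s t)) :=
    hm.mono_measure (Measure.restrict_mono (Ioc_subset_Ioc hs (ht.2.le.trans hτ)) le_rfl)
  have hm3 : AEStronglyMeasurable (rate E G) (volume.restrict (Ioc s t)) :=
    ((hm2.norm.pow 4).indicator hE)
  have hM2 : ∀ᵐ a ∂(volume.restrict (Ioc s t)), ‖G a‖ ≤ M :=
    ae_mono (Measure.restrict_mono hsub le_rfl) hM
  refine Integrable.mono' (g := fun _ => |M| ^ 4) ?_ hm3 ?_
  · exact integrable_const _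
  · filter_upwards [hM2] with a ha
    rw [Real.norm_of_nonneg (rate_nonneg E G a)]
    unfold rate
    by_cases h : a ∈ E
    · rw [indicator_of_mem h]
      exact pow_le_pow_left₀ (norm_nonneg _) (ha.trans (le_abs_self M)) 4
    · rw [indicator_of_notMem h]
      positivity

theorem int_log {s t τ : ℝ} (hs : s < t) (ht : t < τ) (A : ℝ) :
    ∫ a in s..t, A / |τ - a| = A * (Real.log (τ - s) + Real.log (1 / (τ - t))) := by
  have h1 : ∫ a in s..t, A / |τ - a| = ∫ a in s..t, A * (τ - a)⁻¹ := by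
    refine intervalIntegral.integral_congr fun a ha => ?_
    rw [uIcc_of_le hs.le] at ha
    have h0 : 0 < τ - a := by linarith [ha.2]
    show A / |τ - a| = A * (τ - a)⁻¹
    rw [abs_of_pos h0, div_eq_mul_inv]
  rw [h1, intervalIntegral.integral_const_mul,
    intervalIntegral.integral_comp_sub_left (fun x => x⁻¹) τ,
    integral_inv_of_pos (by linarith) (by linarith), Real.log_div (by linarith) (by linarith),
    one_div, Real.log_inv]
  ring

theorem ii_log {s t τ : ℝ} (hs : s < t) (ht : t < τ) (A : ℝ) :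
    IntervalIntegrable (fun a => A / |τ - a|) volume s t := by
  refine ContinuousOn.intervalIntegrable ?_
  rw [uIcc_of_le hs.le]
  refine continuousOn_const.div (continuous_const.sub continuous_id).abs.continuousOn
    fun r hr => ?_
  have : 0 < τ - r := by linarith [hr.2]
  exact abs_ne_zero.2 this.ne'

/-- the radius, extended to all times -/
noncomputable def rho (m ν τ t : ℝ) : ℝ :=
  if t < τ then 3 * K0 * Real.sqrt (ν * (τ - t)) / m else 1

theorem rho_pos {m ν : ℝ} (hm : 0 < m) (hν : 0 < ν) (τ t : ℝ) : 0 < rho m ν τ t := by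
  unfold rho
  split_ifs with h
  · have hK := K0_pos
    have : 0 < τ - t := by linarith
    positivity
  · norm_num

theorem rho_inv {m ν τ t : ℝ} (hm : 0 < m) (hν : 0 < ν) (h : t < τ) :
    (rho m ν τ t ^ 2)⁻¹ = m ^ 2 / (9 * K0 ^ 2 * ν) / |τ - t| := by
  have hK := K0_pos
  have h1 : 0 < τ - t := by linarith
  unfold rho
  rw [if_pos h, abs_of_pos h1, div_pow, mul_pow, Real.sq_sqrt (by positivity)]
  field_simp
  norm_num

/-- the constant of the theorem -/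
noncomputable def c1 : ℝ := 7 / 72 / (64 * S0 ^ 3)

theorem c1_pos : 0 < c1 := by
  have := S0_pos
  unfold c1
  positivity

theorem conc_uniform {Ω : Set R3} (hΩ : IsOpen Ω) {ν T τ : ℝ} (hν : 0 < ν) (hτ : τ ≤ T)
    {F : ℝ → L2 Ω Mat} {u : ℝ → L2 Ω R3} {G : ℝ → L2 Ω Mat} (L : IsLerayHopf Ω ν T F u G)
    (h1 : ∀ t ∈ Ioo 0 τ, ∃ u' G1 G', IsStrong Ω ν t F u u' G1 G')
    (hG : ∀ᵐ t ∂(volume.restrict (Ioo 0 τ)), (u t, G t) ∈ H1graph Ω)
    (H : ∀ c : ℝ, 0 ≤ c → c < 1 → ∀ s ∈ Ico 0 τ, ∃ M : ℝ, ∀ β : ℝ → ℝ,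
        (∀ t, 0 ≤ β t) → (∀ t ∈ Ioo s τ, IntervalIntegrable β volume s t) →
        (∀ᵐ t ∂(volume.restrict (Ioo s τ)), ∀ p ∈ H1graph Ω,
          -stretch (G t) p.1 ≤ c * ν * ‖p.2‖ ^ 2 + β t * ‖p.1‖ ^ 2) →
        ∀ t0 < τ, ∃ t ∈ Ioo t0 τ, s < t ∧
          3 / 4 * Real.log (1 / (τ - t)) - M ≤ ∫ r in s..t, β r)
    {κ b k K η ε m s : ℝ} (hκ : 0 ≤ κ) (hb : 0 ≤ b) (hk : 0 ≤ k) (hη : 0 < η) (hε : 0 < ε)
    (hm : 0 < m) (e1 : 4 * κ + S0 * η + m ≤ 1) (e2 : b + m ≤ 3 / 4)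
    (e3 : K ^ 2 ≤ 3 * (1 - 2 * k - S0 * ε - m)) (hs : s ∈ Ico 0 τ) :
    ∃ M : ℝ, ∀ E : Set ℝ, MeasurableSet E →
      (∀ᵐ t ∂(volume.restrict (Ioo s τ)), t ∉ E → ∀ x ∈ Ω,
        Slow ν κ b k K η ε (τ - t) (Metric.ball x (3 * K0 * Real.sqrt (ν * (τ - t)) / m))
          (G t) (u t)) →
      ∀ t0 < τ, ∃ t ∈ Ioo t0 τ, s < t ∧
        c1 * m * ν ^ 3 * Real.log (1 / (τ - t)) - M ≤ ∫ a in s..t, rate E G a := by
  have hK := K0_pos
  have hC := C1_pos hν
  have hS := S0_pos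
  obtain ⟨M, hM⟩ := uniform hΩ hν hG H (c := 1 - m / 2) (c' := 1 - m / 10) (s := s)
    (by linarith) (by linarith) (by linarith) hs
  refine ⟨(M + (3 / 4 - 3 / 8 * m + 5 / 18 * m) * Real.log (τ - s)) / C1 ν,
    fun E hE hq t0 ht0 => ?_⟩
  have key0 := hM (fun a => (3 / 4 - 3 / 8 * m) / |τ - a| + C1 ν * rate E G a)
    (rho m ν τ) ?_ (rho_pos hm hν τ) ?_ ?_ ?_ t0 ht0
  · obtain ⟨t, ht, hst, h2⟩ := key0
    refine ⟨t, ht, hst, ?_⟩
    have hri : IntervalIntegrable (rate E G) volume s t := rate_int hΩ hτ L h1 hE hs.1 ⟨hst, ht.2⟩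
    rw [intervalIntegral.integral_add (ii_log hst ht.2 _) (hri.const_mul _),
      intervalIntegral.integral_const_mul, int_log hst ht.2] at h2
    have h3 : ∫ a in s..t, (rho m ν τ a ^ 2)⁻¹
        = m ^ 2 / (9 * K0 ^ 2 * ν) * (Real.log (τ - s) + Real.log (1 / (τ - t))) := by
      rw [← int_log hst ht.2]
      refine intervalIntegral.integral_congr fun a ha => ?_
      rw [uIcc_of_le hst.le] at ha
      exact rho_inv hm hν (lt_of_le_of_lt ha.2 ht.2)
    rw [h3] at h2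
    have e4 : K0 ^ 2 * ν / (1 - m / 10 - (1 - m / 2)) * (m ^ 2 / (9 * K0 ^ 2 * ν)
        * (Real.log (τ - s) + Real.log (1 / (τ - t))))
        = 5 / 18 * m * (Real.log (τ - s) + Real.log (1 / (τ - t))) := by
      have : 1 - m / 10 - (1 - m / 2) = 2 * m / 5 := by ring
      rw [this]
      field_simp
      ring
    rw [e4] at h2
    have e5 : c1 * m * ν ^ 3 = 7 / 72 * m / C1 ν := by
      unfold c1 C1
      field_simp
    rw [e5]
    have e6 : 7 / 72 * m / C1 ν * Real.log (1 / (τ - t))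
        - (M + (3 / 4 - 3 / 8 * m + 5 / 18 * m) * Real.log (τ - s)) / C1 ν
        = (7 / 72 * m * Real.log (1 / (τ - t)) - (M + (3 / 4 - 3 / 8 * m + 5 / 18 * m)
          * Real.log (τ - s))) / C1 ν := by
      field_simp
    rw [e6, div_le_iff₀ hC]
    linarith
  · intro a
    have := rate_nonneg E G a
    have h2 : 0 ≤ (3 / 4 - 3 / 8 * m) := by linarith
    positivity
  · intro t ht
    exact (ii_log ht.1 ht.2 _).add ((rate_int hΩ hτ L h1 hE hs.1 ht).const_mul _)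
  · intro t ht
    refine (ii_log ht.1 ht.2 (m ^ 2 / (9 * K0 ^ 2 * ν))).congr_ae ?_
    rw [uIoc_of_le ht.1.le]
    refine (ae_restrict_iff' measurableSet_Ioc).2 (Eventually.of_forall fun a ha => ?_)
    exact (rho_inv hm hν (lt_of_le_of_lt ha.2 ht.2)).symm
  · have a2 : ∀ᵐ t ∂(volume.restrict (Ioo s τ)), (u t, G t) ∈ H1graph Ω :=
      ae_mono (Measure.restrict_mono (Ioo_subset_Ioo_left hs.1) le_rfl) hG
    filter_upwards [hq, a2, ae_restrict_mem measurableSet_Ioo] with t b1 b2 htI x hx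
    have hδ : 0 < τ - t := by linarith [htI.2]
    by_cases hE' : t ∈ E
    · refine all_quiet hΩ hν (by linarith) b2 ?_
      have h4 : rate E G t = ‖G t‖ ^ 4 := indicator_of_mem hE' _
      rw [h4]
      have h5 : 0 ≤ (3 / 4 - 3 / 8 * m) / |τ - t| := div_nonneg (by linarith) (abs_nonneg _)
      linarith
    · have h5 := slow_quiet hΩ hν hδ hκ hb hk hη hε hm e1 e2 e3 b2 (b1 hE' x hx)
      have h6 : rho m ν τ t = 3 * K0 * Real.sqrt (ν * (τ - t)) / m := if_pos htI.2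
      have h7 : (3 / 4 - 3 / 8 * m) / |τ - t| + C1 ν * rate E G t
          = (3 / 4 - 3 / 8 * m) / (τ - t) := by
        have h4 : rate E G t = 0 := indicator_of_notMem hE' _
        rw [h4, abs_of_pos hδ, mul_zero, add_zero]
      rw [h6, h7]
      exact h5

theorem conc_local {Ω : Set R3} (hΩ : IsOpen Ω) {ν T τ : ℝ} (hν : 0 < ν) (hτ : τ ≤ T)
    {F : ℝ → L2 Ω Mat} {u : ℝ → L2 Ω R3} {G : ℝ → L2 Ω Mat} (L : IsLerayHopf Ω ν T F u G)
    (h1 : ∀ t ∈ Ioo 0 τ, ∃ u' G1 G', IsStrong Ω ν t F u u' G1 G')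
    (hG : ∀ᵐ t ∂(volume.restrict (Ioo 0 τ)), (u t, G t) ∈ H1graph Ω)
    {κ b k K η ε m s r : ℝ} (hr : 0 < r)
    (hκ : 0 ≤ κ) (hb : 0 ≤ b) (hk : 0 ≤ k) (hη : 0 < η) (hε : 0 < ε)
    (hm : 0 < m) (e1 : 4 * κ + S0 * η + m ≤ 1) (e2 : b + m ≤ 3 / 4)
    (e3 : K ^ 2 ≤ 3 * (1 - 2 * k - S0 * ε - m)) (hs : s ∈ Ico 0 τ) {x0 : R3} {E : Set ℝ}
    (hE : MeasurableSet E)
    (hlim : Tendsto (fun t => (∫ a in s..t, rate E G a) / Real.log (1 / (τ - t))) (𝓝[<] τ) (𝓝 0))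
    (hq : ∀ᵐ t ∂(volume.restrict (Ioo s τ)), t ∉ E → ∀ x ∈ Ω ∩ Metric.ball x0 r,
        Slow ν κ b k K η ε (τ - t) (Metric.ball x (3 * K0 * Real.sqrt (ν * (τ - t)) / m))
          (G t) (u t)) :
    LocHyp ν τ u x0 r (1 - m / 2) (3 / 4 - 3 / 8 * m) s fun t => C1 ν * rate E G t := by
  have hC := C1_pos hν
  refine ⟨hr, by linarith, by linarith, by linarith, by linarith, hs,
    fun t => mul_nonneg hC.le (rate_nonneg E G t),
    fun t ht => (rate_int hΩ hτ L h1 hE hs.1 ht).const_mul _, ?_, ?_⟩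
  · have h2 := hlim.const_mul (C1 ν)
    rw [mul_zero] at h2
    refine h2.congr fun t => ?_
    rw [intervalIntegral.integral_const_mul]
    ring
  · have a2 : ∀ᵐ t ∂(volume.restrict (Ioo s τ)), (u t, G t) ∈ H1graph Ω :=
      ae_mono (Measure.restrict_mono (Ioo_subset_Ioo_left hs.1) le_rfl) hG
    filter_upwards [hq, a2, ae_restrict_mem measurableSet_Ioo] with t b1 b2 htI x hx
    have hδ : 0 < τ - t := by linarith [htI.2]
    by_cases hE' : t ∈ E
    · refine all_quiet hΩ hν (by linarith) b2 ?_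
      have h4 : rate E G t = ‖G t‖ ^ 4 := indicator_of_mem hE' _
      rw [h4]
      have h5 : 0 ≤ (3 / 4 - 3 / 8 * m) / (τ - t) := div_nonneg (by linarith) hδ.le
      linarith
    · have hsub := Metric.ball_subset_ball (x := x) (rad_le hm hν hδ)
      have h5 := slow_quiet hΩ hν hδ hκ hb hk hη hε hm e1 e2 e3 b2 (V := Metric.ball x
        (rad (1 - m / 2) (3 / 4 - 3 / 8 * m) ν (τ - t)))
        ((b1 hE' x hx).imp (fun h => h.mono hsub) fun h => h.mono hsub)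
      have h7 : (3 / 4 - 3 / 8 * m) / (τ - t) + C1 ν * rate E G t
          = (3 / 4 - 3 / 8 * m) / (τ - t) := by
        have h4 : rate E G t = 0 := indicator_of_notMem hE' _
        rw [h4, mul_zero, add_zero]
      rw [h7]
      exact h5

end Run7.h283.NS
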