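import Mathlib

/-!
The sharp Hardy inequality on an open subset of the line, with the distances to the complement in
both directions.
-/

set_option autoImplicit false

open MeasureTheory Set Filter Topology
open scoped ENNReal ContDiff

namespace Run7.h283.NS

/-- the distance from `s` to the complement of `U` to the right -/
noncomputable def rt (U : Set ℝ) (s : ℝ) : ℝ := sInf {r : ℝ | 0 < r ∧ s + r ∉ U}

/-- the distance from `s` to the complement of `U` to the left -/
noncomputable def lf (U : Set ℝ) (s : ℝ) : ℝ := sInf {r : ℝ | 0 < r ∧ s - r ∉ U}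

variable {U : Set ℝ}

theorem rt_nonempty (hb : Bornology.IsBounded U) (s : ℝ) : {r : ℝ | 0 < r ∧ s + r ∉ U}.Nonempty := by
  obtain ⟨C, hC⟩ := hb.exists_norm_le
  refine ⟨|s| + |C| + 1, by positivity, fun h => ?_⟩
  have h1 := hC _ h
  rw [Real.norm_eq_abs] at h1
  have h2 := le_abs_self (s + (|s| + |C| + 1))
  have h3 := neg_abs_le s
  have h4 := le_abs_self C
  linarith

theorem rt_bdd (s : ℝ) : BddBelow {r : ℝ | 0 < r ∧ s + r ∉ U} := ⟨0, fun _ h => h.1.le⟩

theorem lf_bdd (s : ℝ) : BddBelow {r : ℝ | 0 < r ∧ s - r ∉ U} := ⟨0, fun _ h => h.1.le⟩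

theorem rt_nonneg (s : ℝ) : 0 ≤ rt U s := Real.sInf_nonneg fun _ h => h.1.le

/-- the reflected set -/
theorem lf_eq (s : ℝ) : lf U s = rt (Neg.neg ⁻¹' U) (-s) := by
  unfold lf rt
  congr 1
  ext r
  rw [Set.mem_ofPred_eq, Set.mem_ofPred_eq, mem_preimage, neg_add, neg_neg, sub_eq_add_neg]

theorem mem_of_lt_rt {s r : ℝ} (hr : 0 < r) (h : r < rt U s) : s + r ∈ U := by
  by_contra hcon
  exact absurd (csInf_le (rt_bdd s) ⟨hr, hcon⟩) (not_le.2 h)

theorem le_rt (hb : Bornology.IsBounded U) {s r : ℝ} (h : ∀ x, 0 < x → x < r → s + x ∈ U) :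
    r ≤ rt U s := by
  refine le_csInf (rt_nonempty hb s) fun x hx => ?_
  by_contra hcon
  exact hx.2 (h x hx.1 (not_le.1 hcon))

theorem rt_not_mem (hU : IsOpen U) (hb : Bornology.IsBounded U) {s : ℝ} :
    s + rt U s ∉ U := by
  intro hcon
  have h0 := rt_nonneg (U := U) s
  obtain ⟨δ, hδ, hball⟩ := Metric.isOpen_iff.1 hU _ hcon
  have h2 : rt U s + δ ≤ rt U s := by
    refine le_rt hb fun x hx hxr => ?_
    rcases lt_or_ge x (rt U s) with h | h
    · exact mem_of_lt_rt hx h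
    · refine hball ?_
      rw [Metric.mem_ball, Real.dist_eq, abs_lt]
      constructor <;> linarith
  linarith

theorem rt_pos (hU : IsOpen U) (hb : Bornology.IsBounded U) {s : ℝ} (hs : s ∈ U) : 0 < rt U s := by
  obtain ⟨δ, hδ, hball⟩ := Metric.isOpen_iff.1 hU s hs
  refine lt_of_lt_of_le hδ (le_rt hb fun x hx hxr => hball ?_)
  rw [Metric.mem_ball, Real.dist_eq, abs_lt]
  constructor <;> linarith

/-- along a component the distance to the right end is affine -/
theorem rt_shift (hU : IsOpen U) (hb : Bornology.IsBounded U) {s t : ℝ} (hs : s ∈ U)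
    (h1 : |t| < rt U s) (h2 : ∀ x, |x| ≤ |t| → s + x ∈ U) : rt U (s + t) = rt U s - t := by
  have ht := abs_lt.1 h1
  apply le_antisymm
  · refine csInf_le (rt_bdd _) ⟨by linarith [ht.2], ?_⟩
    rw [show s + t + (rt U s - t) = s + rt U s by ring]
    exact rt_not_mem hU hb
  · refine le_rt hb fun x hx hxr => ?_
    rw [add_assoc]
    rcases lt_trichotomy (t + x) 0 with h | h | h
    · refine h2 _ ?_
      rw [abs_of_neg h]
      have := neg_abs_le t
      linarith
    · rw [h, add_zero]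
      exact hs
    · exact mem_of_lt_rt h (by linarith)

theorem near_mem (hU : IsOpen U) {s : ℝ} (hs : s ∈ U) : ∃ δ : ℝ, 0 < δ ∧ ∀ x, |x| < δ → s + x ∈ U := by
  obtain ⟨δ, hδ, hball⟩ := Metric.isOpen_iff.1 hU s hs
  refine ⟨δ, hδ, fun x hx => hball ?_⟩
  rw [Metric.mem_ball, Real.dist_eq]
  simpa using hx

theorem rt_near (hU : IsOpen U) (hb : Bornology.IsBounded U) {s : ℝ} (hs : s ∈ U) :
    ∀ᶠ y in 𝓝 s, rt U y = rt U s - (y - s) := by
  obtain ⟨δ, hδ, h⟩ := near_mem hU hs
  have hr := rt_pos hU hb hs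
  rw [Metric.eventually_nhds_iff]
  refine ⟨min δ (rt U s), lt_min hδ hr, fun y hy => ?_⟩
  rw [Real.dist_eq, lt_min_iff] at hy
  have := rt_shift hU hb hs (t := y - s) hy.2 (fun x hx => h x (lt_of_le_of_lt hx hy.1))
  rwa [add_sub_cancel] at this

theorem rt_deriv (hU : IsOpen U) (hb : Bornology.IsBounded U) {s : ℝ} (hs : s ∈ U) :
    HasDerivAt (rt U) (-1) s := by
  have h1 : HasDerivAt (fun y : ℝ => rt U s - (y - s)) (-1) s := by
    have := ((hasDerivAt_id s).sub_const s).const_sub (rt U s)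
    simpa using this
  exact h1.congr_of_eventuallyEq (rt_near hU hb hs)

theorem neg_open (hU : IsOpen U) : IsOpen (Neg.neg ⁻¹' U) := hU.preimage continuous_neg

theorem neg_bdd (hb : Bornology.IsBounded U) : Bornology.IsBounded (Neg.neg ⁻¹' U) := by
  obtain ⟨C, hC⟩ := hb.exists_norm_le
  refine isBounded_iff_forall_norm_le.2 ⟨C, fun x hx => ?_⟩
  have := hC _ hx
  rwa [norm_neg] at this

theorem lf_pos (hU : IsOpen U) (hb : Bornology.IsBounded U) {s : ℝ} (hs : s ∈ U) : 0 < lf U s := by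
  rw [lf_eq]
  refine rt_pos (neg_open hU) (neg_bdd hb) ?_
  rwa [mem_preimage, neg_neg]

theorem lf_deriv (hU : IsOpen U) (hb : Bornology.IsBounded U) {s : ℝ} (hs : s ∈ U) :
    HasDerivAt (lf U) 1 s := by
  have h0 : -s ∈ Neg.neg ⁻¹' U := by rwa [mem_preimage, neg_neg]
  have h1 := (rt_deriv (neg_open hU) (neg_bdd hb) h0).comp s (hasDerivAt_neg s)
  have h2 : lf U = rt (Neg.neg ⁻¹' U) ∘ Neg.neg := funext fun s => lf_eq s
  rw [h2]
  simpa using h1

/-- **The Hardy inequality on the line.** -/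
theorem hardy_line (hU : IsOpen U) (hb : Bornology.IsBounded U) {f : ℝ → ℝ} (hf : ContDiff ℝ ∞ f)
    (hc : HasCompactSupport f) (hs : tsupport f ⊆ U) :
    ∫⁻ s in U, ENNReal.ofReal (1 / 4 * ((rt U s)⁻¹ + (lf U s)⁻¹) ^ 2 * f s ^ 2)
      ≤ ENNReal.ofReal (∫ s, deriv f s ^ 2) := by
  have hd : ∀ s, HasDerivAt f (deriv f s) s := fun s =>
    (hf.differentiable (by norm_num) s).hasDerivAt
  have hdc : Continuous (deriv f) := hf.continuous_deriv (by norm_num)
  have hdcs : HasCompactSupport (deriv f) := hc.deriv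
  -- the function `f ^ 2 q`
  obtain ⟨q, hq⟩ : ∃ q : ℝ → ℝ, q = fun s => 1 / 2 * ((lf U s)⁻¹ - (rt U s)⁻¹) := ⟨_, rfl⟩
  obtain ⟨q', hq'⟩ : ∃ q' : ℝ → ℝ, q' = fun s => -(1 / 2 * ((lf U s ^ 2)⁻¹ + (rt U s ^ 2)⁻¹)) :=
    ⟨_, rfl⟩
  have hqd : ∀ s ∈ U, HasDerivAt q (q' s) s := by
    intro s hsU
    have hl := lf_pos hU hb hsU
    have hr := rt_pos hU hb hsU
    have h1 := (lf_deriv hU hb hsU).inv hl.ne'
    have h2 := (rt_deriv hU hb hsU).inv hr.ne'
    have h3 := (h1.sub h2).const_mul (1 / 2)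
    rw [hq, hq']
    refine h3.congr_deriv ?_
    simp only [div_eq_mul_inv]
    ring
  have hqc : ∀ s ∈ U, ContinuousAt q' s := by
    intro s hsU
    have hl := lf_pos hU hb hsU
    have hr := rt_pos hU hb hsU
    have c1 := (lf_deriv hU hb hsU).continuousAt
    have c2 := (rt_deriv hU hb hsU).continuousAt
    rw [hq']
    exact ((((c1.pow 2).inv₀ (pow_pos hl 2).ne').add
      ((c2.pow 2).inv₀ (pow_pos hr 2).ne')).const_mul _).neg
  obtain ⟨F', hF'⟩ : ∃ F' : ℝ → ℝ, F' = fun s => 2 * f s * deriv f s * q s + f s ^ 2 * q' s :=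
    ⟨_, rfl⟩
  have hF : ∀ s, HasDerivAt (fun s => f s ^ 2 * q s) (F' s) s := by
    intro s
    by_cases h : s ∈ tsupport f
    · have h1 := ((hd s).pow 2).mul (hqd s (hs h))
      rw [hF']
      refine h1.congr_deriv ?_
      simp
    · have h0 : f =ᶠ[𝓝 s] 0 := notMem_tsupport_iff_eventuallyEq.1 h
      have h1 : f s = 0 := h0.eq_of_nhds
      have h2 : F' s = 0 := by rw [hF']; simp [h1]
      rw [h2]
      refine (hasDerivAt_const s (0 : ℝ)).congr_of_eventuallyEq ?_
      filter_upwards [h0] with y hy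
      simp [hy]
  have hF'c : Continuous F' := by
    rw [continuous_iff_continuousAt]
    intro s
    by_cases h : s ∈ tsupport f
    · have h1 := (hqd s (hs h)).continuousAt
      have h2 := hqc s (hs h)
      have h3 := hf.continuous.continuousAt (x := s)
      have h4 := hdc.continuousAt (x := s)
      rw [hF']
      exact (((h3.const_mul 2).mul h4).mul h1).add ((h3.pow 2).mul h2)
    · have h0 : f =ᶠ[𝓝 s] 0 := notMem_tsupport_iff_eventuallyEq.1 h
      refine (continuousAt_const (y := (0 : ℝ))).congr ?_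
      filter_upwards [h0] with y hy
      rw [hF']
      simp [hy]
  have hF's : HasCompactSupport F' := by
    refine hc.mono' fun s hs => ?_
    by_contra h
    have h0 : f =ᶠ[𝓝 s] 0 := notMem_tsupport_iff_eventuallyEq.1 h
    apply hs
    rw [hF']
    simp [h0.eq_of_nhds]
  have hFc : Continuous fun s => f s ^ 2 * q s :=
    continuous_iff_continuousAt.2 fun s => (hF s).continuousAt
  have hFs : HasCompactSupport fun s => f s ^ 2 * q s := by
    refine hc.mono fun s hs h => hs ?_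
    simp [h]
  have i1 : Integrable F' := hF'c.integrable_of_hasCompactSupport hF's
  have i2 : Integrable fun s => f s ^ 2 * q s := hFc.integrable_of_hasCompactSupport hFs
  have h0 : ∫ s, F' s = 0 := integral_eq_zero_of_hasDerivAt_of_integrable hF i1 i2
  have i3 : Integrable fun s => deriv f s ^ 2 :=
    Continuous.integrable_of_hasCompactSupport (f := fun s => deriv f s ^ 2) (hdc.pow 2)
      (hdcs.comp_left (g := fun x : ℝ => x ^ 2) (by simp))
  have hkey : ∀ s ∈ U, 1 / 4 * ((rt U s)⁻¹ + (lf U s)⁻¹) ^ 2 * f s ^ 2 ≤ deriv f s ^ 2 - F' s := by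
    intro s hsU
    have hl := lf_pos hU hb hsU
    have hr := rt_pos hU hb hsU
    have e : deriv f s ^ 2 - F' s - 1 / 4 * ((rt U s)⁻¹ + (lf U s)⁻¹) ^ 2 * f s ^ 2
        = (deriv f s - q s * f s) ^ 2 := by
      rw [hF', hq, hq']
      simp only [← inv_pow]
      ring
    have := sq_nonneg (deriv f s - q s * f s)
    linarith
  have hnn : ∀ s, 0 ≤ deriv f s ^ 2 - F' s := by
    intro s
    by_cases h : s ∈ tsupport f
    · refine le_trans ?_ (hkey s (hs h))
      positivity
    · have h0 : f =ᶠ[𝓝 s] 0 := notMem_tsupport_iff_eventuallyEq.1 h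
      have h2 : F' s = 0 := by rw [hF']; simp [h0.eq_of_nhds]
      rw [h2, sub_zero]
      positivity
  calc ∫⁻ s in U, ENNReal.ofReal (1 / 4 * ((rt U s)⁻¹ + (lf U s)⁻¹) ^ 2 * f s ^ 2)
      ≤ ∫⁻ s in U, ENNReal.ofReal (deriv f s ^ 2 - F' s) :=
        setLIntegral_mono_ae' hU.measurableSet (Eventually.of_forall fun s hs =>
          ENNReal.ofReal_le_ofReal (hkey s hs))
    _ ≤ ∫⁻ s, ENNReal.ofReal (deriv f s ^ 2 - F' s) := setLIntegral_le_lintegral _ _
    _ = ENNReal.ofReal (∫ s, (deriv f s ^ 2 - F' s)) :=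
        (ofReal_integral_eq_lintegral_ofReal (i3.sub i1) (Eventually.of_forall hnn)).symm
    _ = ENNReal.ofReal (∫ s, deriv f s ^ 2) := by
        rw [integral_sub i3 i1, h0, sub_zero]

end Run7.h283.NS
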