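import Pool.Agent.Run7.h283.NS.Wall1

/-!
The local criterion with the wall potential.
-/

set_option autoImplicit false

open MeasureTheory Set Filter Topology
open scoped InnerProductSpace ENNReal ContDiff

namespace Run7.h283.NS

open H772R2.NS.Pub Pool.Agent.W795.TQ Pool.Agent.R462.HC Pool.Agent.R772.LI
open Pool.Agent.W795.ES (stretch outer)

theorem strain_at {Ω V : Set R3} (hΩ : IsOpen Ω) (hbd : Bornology.IsBounded Ω)
    {ν κ' κ B l c β : ℝ} (hν : 0 < ν) (hκ' : 0 ≤ κ') (hκ : 0 ≤ κ)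
    (hB : 0 ≤ B) (hl : 0 < l) (hc : 4 * (κ' + κ) + l / 2 ≤ c) (hβ : B ≤ β) {U : L2 Ω R3}
    {G : L2 Ω Mat} (hU : (U, G) ∈ H1graph Ω) (hs : SlowStrainAt V (κ' * ν) (κ * ν) B G) :
    Quiet V ν c β U := by
  obtain ⟨b, y, hb, hy⟩ := hs
  have hW := mix_formBdd (V := V) hΩ hbd hb y hκ' hκ
  refine ⟨U, G, 0, mix Ω b y κ' κ, 4 * (κ' + κ), 0, l, B, 0,
    hU, contDiff_const, hW, by positivity, hl, hB, le_rfl,
    by simpa using hc, by simpa using hβ, ?_, ?_⟩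
  · refine pub_form_of_pt hΩ hW (by positivity) hB ?_
    filter_upwards [hy] with x hx ξ
    have h1 := hx ξ
    have h2 : fderiv ℝ (0 : R3 → R3) x ξ = 0 := by simp
    rw [h2, inner_zero_left, add_zero]
    have h3 : 4 * (κ' + κ) * ν * mix Ω b y κ' κ x
        = κ' * ν * wall Ω b x + κ * ν / ‖x - y‖ ^ 2 := by
      rw [show 4 * (κ' + κ) * ν * mix Ω b y κ' κ x
        = ν * (4 * (κ' + κ) * mix Ω b y κ' κ x) by ring, mix_eq y hκ' hκ]
      ring
    rw [h3]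
    linarith
  · refine Eventually.of_forall fun x => ?_
    simp

theorem velocity_at {Ω V : Set R3} (hΩ : IsOpen Ω) (hbd : Bornology.IsBounded Ω)
    {ν k' k B μ c β : ℝ} (hν : 0 < ν) (hk' : 0 ≤ k') (hk : 0 ≤ k)
    (hB : 0 ≤ B) (hμ : 0 < μ) (hc : 2 * (k' + k) + μ ≤ c) (hβ : B ^ 2 / (4 * μ * ν) ≤ β)
    {U : L2 Ω R3} (hs : SlowVelocityAt V (k' * ν) (k * ν) B U) : Quiet V ν c β U := by
  obtain ⟨b, y, a, A, hb, hA, hy⟩ := hs
  obtain ⟨K, hK⟩ : ∃ K, K = k' + k := ⟨_, rfl⟩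
  have hK0 : 0 ≤ K := by rw [hK]; positivity
  rw [← hK] at hc
  have hl : 0 < 2 * K + 2 * μ := by positivity
  have hz : ∀ᵐ x ∂(volume.restrict (Ω ∩ V)), (0 : L2 Ω Mat).fn x = 0 :=
    ae_mono (Measure.restrict_mono inter_subset_left le_rfl) (zero_fn Ω Mat)
  have hz3 : ∀ᵐ x ∂(volume.restrict (Ω ∩ V)), (0 : L2 Ω R3).fn x = 0 :=
    ae_mono (Measure.restrict_mono inter_subset_left le_rfl) (zero_fn Ω R3)
  have hW := mix_formBdd (V := V) hΩ hbd hb y hk' hk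
  refine ⟨0, 0, fun x => a + A x, mix Ω b y k' k, 0,
    Real.sqrt (2 * K * (2 * K + 2 * μ)), 2 * K + 2 * μ, 0, B ^ 2 / (4 * μ * ν),
    zero_mem_graph Ω, contDiff_const.add A.contDiff, hW,
    le_rfl, hl, le_rfl, by positivity, ?_, by simpa using hβ, ?_, ?_⟩
  · rw [Real.sq_sqrt (by positivity)]
    refine le_trans (le_of_eq ?_) hc
    field_simp
    ring
  · rw [show (0 : ℝ) * ν = 0 by ring]
    refine pub_form_of_pt hΩ hW le_rfl le_rfl ?_
    filter_upwards [hz] with x hx ξ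
    rw [hx, inner_zero_left]
    have h2 : fderiv ℝ (fun x => a + A x) x = A := by
      rw [fderiv_const_add]
      exact A.fderiv
    rw [h2, hA]
    simp
  · filter_upwards [hy, hz3] with x hx h0
    rw [h0, sub_zero, Real.sq_sqrt (by positivity)]
    have hm := mix_nonneg (Ω := Ω) (b := b) y hk' hk x
    have h3 : k' * ν * Real.sqrt (wall Ω b x) + k * ν / ‖x - y‖
        ≤ K * (2 * ν * Real.sqrt (mix Ω b y k' k x)) := by
      have h4 := mul_le_mul_of_nonneg_left (mix_sqrt (Ω := Ω) (b := b) y hk' hk x) hν.le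
      rw [← hK] at h4
      refine le_trans (le_of_eq ?_) (h4.trans (le_of_eq ?_))
      · ring
      · ring
    have h1 : ‖U.fn x - (a + A x)‖ ^ 2 ≤ (K * (2 * ν * Real.sqrt (mix Ω b y k' k x)) + B) ^ 2 :=
      pow_le_pow_left₀ (norm_nonneg _) (by linarith) 2
    refine h1.trans ?_
    have h2 := young_pt (a := 2 * ν * Real.sqrt (mix Ω b y k' k x)) (B := B) hK0 hμ
    refine h2.trans (le_of_eq ?_)
    have e2 : 2 * (2 * K + 2 * μ) * ν * (B ^ 2 / (4 * μ * ν)) = (K + μ) / μ * B ^ 2 := by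
      field_simp
      ring
    rw [e2, mul_pow, mul_pow, Real.sq_sqrt hm]
    ring

theorem SlowStrainAt.mono {Ω V V' : Set R3} (h : V' ⊆ V) {κ' κ B : ℝ} {G : L2 Ω Mat}
    (hs : SlowStrainAt V κ' κ B G) : SlowStrainAt V' κ' κ B G := by
  obtain ⟨b, y, hb, hy⟩ := hs
  exact ⟨b, y, hb, ae_mono (Measure.restrict_mono (inter_subset_inter_right Ω h) le_rfl) hy⟩

theorem SlowVelocityAt.mono {Ω V V' : Set R3} (h : V' ⊆ V) {κ' κ B : ℝ} {u : L2 Ω R3}
    (hs : SlowVelocityAt V κ' κ B u) : SlowVelocityAt V' κ' κ B u := by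
  obtain ⟨b, y, a, A, hb, hA, hy⟩ := hs
  exact ⟨b, y, a, A, hb, hA,
    ae_mono (Measure.restrict_mono (inter_subset_inter_right Ω h) le_rfl) hy⟩

theorem explicit_at {Ω : Set R3} (hΩ : IsOpen Ω) (hbd : Bornology.IsBounded Ω)
    {ν κ' κ b k' k K m δ : ℝ} (hν : 0 < ν) (hδ : 0 < δ) (hκ' : 0 ≤ κ')
    (hκ : 0 ≤ κ) (hb : 0 ≤ b) (hk' : 0 ≤ k') (hk : 0 ≤ k) (hK : 0 ≤ K) (hm : 0 < m)
    (h1 : 4 * (κ' + κ) + m ≤ 1) (h2 : b + m ≤ 3 / 4) (h3 : K ^ 2 ≤ 3 * (1 - 2 * (k' + k) - m))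
    {U : L2 Ω R3} {G : L2 Ω Mat} (hU : (U, G) ∈ H1graph Ω) {x : R3}
    (hs : SlowStrainAt (Metric.ball x (3 * K0 * Real.sqrt (ν * δ) / m)) (κ' * ν) (κ * ν) (b / δ) G ∨
      SlowVelocityAt (Metric.ball x (3 * K0 * Real.sqrt (ν * δ) / m)) (k' * ν) (k * ν)
        (K * Real.sqrt (ν / δ)) U) :
    Quiet (Metric.ball x (rad (1 - m / 2) (3 / 4 - 3 / 8 * m) ν δ)) ν (1 - m / 2)
      ((3 / 4 - 3 / 8 * m) / δ) U := by
  have hsub := Metric.ball_subset_ball (x := x) (rad_le hm hν hδ)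
  rcases hs with hs | hs
  · refine strain_at (l := m) hΩ hbd hν hκ' hκ (div_nonneg hb hδ.le) hm (by linarith) ?_ hU
      (hs.mono hsub)
    exact div_le_div_of_nonneg_right (by linarith) hδ.le
  · have hkk : 0 ≤ k' + k := add_nonneg hk' hk
    have hμ : 0 < 1 - 2 * (k' + k) - m / 2 := by nlinarith [sq_nonneg K]
    refine velocity_at (μ := 1 - 2 * (k' + k) - m / 2) hΩ hbd hν hk' hk (by positivity) hμ
      (by linarith) ?_ (hs.mono hsub)
    rw [mul_pow, Real.sq_sqrt (by positivity)]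
    have e1 : K ^ 2 * (ν / δ) / (4 * (1 - 2 * (k' + k) - m / 2) * ν)
        = K ^ 2 / (4 * (1 - 2 * (k' + k) - m / 2)) / δ := by
      field_simp
    rw [e1]
    refine div_le_div_of_nonneg_right ?_ hδ.le
    rw [div_le_iff₀ (by positivity)]
    nlinarith [mul_nonneg hm.le hkk, mul_pos hm hm]

end Run7.h283.NS
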